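import Mathlib

set_option autoImplicit false
open Finset Complex MeasureTheory
open scoped ComplexInnerProductSpace ENNReal NNReal

namespace Pool.Agent.Results.MP_f2c8fe_an.RiviereFalse

/-! ### Definitions used in the statement -/

/-- The decreasing rearrangement `g^*(t)` of a function `g` on `R^n`: the smallest height `s` whose
strict superlevel set `{s < |g|}` has Lebesgue measure at most `t`. -/
noncomputable def rearr {n : ℕ} (g : (Fin n → ℝ) → ℂ) (t : ℝ) : ℝ≥0∞ :=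
  sInf {s : ℝ≥0∞ | volume {x | s < ‖g x‖ₑ} ≤ ENNReal.ofReal t}

/-- The weak norm `sup_{t > 0} t^(1/p) g^*(t)` of `L^{p,∞}`. -/
noncomputable def weakNorm {n : ℕ} (p : ℝ) (g : (Fin n → ℝ) → ℂ) : ℝ≥0∞ :=
  ⨆ (t : ℝ) (_ : 0 < t), ENNReal.ofReal (t ^ (1 / p)) * rearr g t

/-- The Lorentz quasi-norm `(∫_0^∞ (t^(1/p) g^*(t))^q dt/t)^(1/q)` of `L^{p,q}`. -/
noncomputable def lorentzNorm {n : ℕ} (p q : ℝ) (g : (Fin n → ℝ) → ℂ) : ℝ≥0∞ :=
  (∫⁻ t in Set.Ioi (0 : ℝ),
    (ENNReal.ofReal (t ^ (1 / p)) * rearr g t) ^ q * ENNReal.ofReal (1 / t)) ^ (1 / q)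

/-- The space `L^p(R^n)` of complex functions, for a real exponent `p`. -/
abbrev LpR (n : ℕ) (p : ℝ) : Type :=
  Lp ℂ (ENNReal.ofReal p) (volume : Measure ((Fin n → ℝ)))

/-- Complex measurable functions on `R^n` modulo null sets. -/
abbrev MeasR (n : ℕ) : Type :=
  (Fin n → ℝ) →ₘ[(volume : Measure ((Fin n → ℝ)))] ℂ

/-- Translation `(τ_h g)(x) = g (x - h)` on classes of measurable functions modulo null sets. -/
noncomputable def transM {n : ℕ} (h : (Fin n → ℝ)) (g : MeasR n) : MeasR n :=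
  g.compMeasurePreserving (fun x => x - h) (measurePreserving_sub_right volume h)

lemma transM_mem {n : ℕ} {p : ℝ} (h : Fin n → ℝ) (f : LpR n p) :
    transM h (f : MeasR n) ∈ Lp ℂ (ENNReal.ofReal p) (volume : Measure (Fin n → ℝ)) :=
  (f : MeasR n).compMeasurePreserving_mem_Lp f.2 (measurePreserving_sub_right volume h)

/-- Translation `(τ_h f)(x) = f (x - h)` on `L^p(R^n)`: the previous translation restricted to the
subspace `L^p(R^n)`. -/
noncomputable def transLp {n : ℕ} {p : ℝ} (h : Fin n → ℝ) (f : LpR n p) : LpR n p :=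
  ⟨transM h f, transM_mem h f⟩

/-- Linear operators from `L^p(R^n)` to measurable functions modulo null sets. -/
abbrev Op (n : ℕ) (p : ℝ) : Type := LpR n p →ₗ[ℂ] MeasR n

/-- The operator `T` commutes with all translations of `R^n`. -/
def TranslationInvariant {n : ℕ} {p : ℝ} (T : Op n p) : Prop :=
  ∀ (h : (Fin n → ℝ)) (f : LpR n p), T (transLp h f) = transM h (T f)

/-- The operator `T` is bounded from `L^p` into the space with quasi-norm `N`. -/
def BoundedInto {n : ℕ} {p : ℝ} (T : Op n p)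
    (N : ((Fin n → ℝ) → ℂ) → ℝ≥0∞) : Prop :=
  ∃ C : ℝ≥0, ∀ f : LpR n p, N (T f) ≤ C * eLpNorm f (ENNReal.ofReal p) volume

/-! ### Parseval modulo `N` -/

lemma geom_root {N : ℕ} {ω : ℂ} (hω : IsPrimitiveRoot ω N) (u v : ℕ)
    (hu : u < N) (hv : v < N) :
    ∑ b ∈ range N, (starRingEnd ℂ) (ω ^ (b * u)) * ω ^ (b * v) = if u = v then (N : ℂ) else 0 := by
  have hN : N ≠ 0 := by omega
  have hnorm : ‖ω‖ = 1 := hω.norm'_eq_one hN
  have hconj : (starRingEnd ℂ) ω = ω⁻¹ := by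
    rw [Complex.inv_def, Complex.normSq_eq_norm_sq, hnorm]; simp
  have hω0 : ω ≠ 0 := hω.ne_zero hN
  have key : ∀ b : ℕ, (starRingEnd ℂ) (ω ^ (b * u)) * ω ^ (b * v) = (ω ^ ((v : ℤ) - u)) ^ b := by
    intro b
    rw [map_pow, hconj, ← zpow_natCast, ← zpow_natCast, ← zpow_natCast, inv_zpow, ← zpow_neg,
      ← zpow_add₀ hω0, ← zpow_mul]
    congr 1
    push_cast; ring
  simp_rw [key]
  split_ifs with h
  · subst h; simp
  · have h1 : ω ^ ((v : ℤ) - u) ≠ 1 := by
      intro h1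
      have := (hω.zpow_eq_one_iff_dvd _).1 h1
      have h2 := Int.eq_zero_of_abs_lt_dvd this (by rw [abs_lt]; constructor <;> omega)
      omega
    have h2 : (ω ^ ((v : ℤ) - u)) ^ N = 1 := by
      rw [← zpow_natCast, ← zpow_mul, mul_comm, zpow_mul, zpow_natCast, hω.pow_eq_one, one_zpow]
    have h3 := mul_neg_geom_sum (ω ^ ((v : ℤ) - u)) N
    rw [h2, sub_self] at h3
    rcases mul_eq_zero.1 h3 with h4 | h4
    · exact absurd (sub_eq_zero.1 h4).symm h1
    · exact h4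

lemma parseval {E : Type*} [NormedAddCommGroup E] [InnerProductSpace ℂ E] {N : ℕ}
    {ω : ℂ} (hω : IsPrimitiveRoot ω N) (x : ℕ → E) :
    ∑ b ∈ range N, ‖∑ u ∈ range N, ω ^ (b * u) • x u‖ ^ 2 = N * ∑ u ∈ range N, ‖x u‖ ^ 2 := by
  have h : ((∑ b ∈ range N, ‖∑ u ∈ range N, ω ^ (b * u) • x u‖ ^ 2 : ℝ) : ℂ)
      = ((N * ∑ u ∈ range N, ‖x u‖ ^ 2 : ℝ) : ℂ) := by
    push_cast
    have h1 : ∀ b : ℕ, ((‖∑ u ∈ range N, ω ^ (b * u) • x u‖ : ℂ)) ^ 2
        = ∑ u ∈ range N, ∑ v ∈ range N,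
          ((starRingEnd ℂ) (ω ^ (b * u)) * ω ^ (b * v)) * ⟪x u, x v⟫ := by
      intro b
      have := inner_self_eq_norm_sq_to_K (𝕜 := ℂ) (∑ u ∈ range N, ω ^ (b * u) • x u)
      have h2 : ((‖∑ u ∈ range N, ω ^ (b * u) • x u‖ : ℂ)) ^ 2 =
        ⟪∑ u ∈ range N, ω ^ (b * u) • x u, ∑ u ∈ range N, ω ^ (b * u) • x u⟫ := by
        rw [this]; norm_cast
      rw [h2, sum_inner]
      refine Finset.sum_congr rfl fun u _ => ?_
      rw [inner_sum]
      refine Finset.sum_congr rfl fun v _ => ?_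
      rw [inner_smul_left, inner_smul_right]; ring
    simp_rw [h1]
    rw [Finset.sum_comm, Finset.mul_sum]
    refine Finset.sum_congr rfl fun u hu => ?_
    rw [Finset.sum_comm]
    simp_rw [← Finset.sum_mul]
    rw [Finset.sum_eq_single u]
    · rw [geom_root hω u u (mem_range.1 hu) (mem_range.1 hu), if_pos rfl,
        inner_self_eq_norm_sq_to_K]
      rfl
    · intro v hv hvu
      rw [geom_root hω u v (mem_range.1 hu) (mem_range.1 hv), if_neg (Ne.symm hvu), zero_mul]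
    · intro h; exact absurd hu h
  exact_mod_cast h


/-! ### The kernel -/

noncomputable def phi (N : ℕ) (u : ℤ) : ℝ := max 0 (1 - |(u : ℝ) + 1 - N| / N)

noncomputable def ck (N : ℕ) (ω : ℂ) (y : ℤ) : ℂ :=
  ∑ b ∈ range N, ω ^ ((b : ℤ) * y) * (phi N (y - 2 * N * b) : ℂ)

lemma phi_nonneg (N : ℕ) (u : ℤ) : 0 ≤ phi N u := le_max_left _ _

lemma phi_le_one (N : ℕ) (u : ℤ) : phi N u ≤ 1 := by
  unfold phi
  apply max_le zero_le_one
  have : 0 ≤ |(u : ℝ) + 1 - N| / N := by positivity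
  linarith

lemma phi_supp {N : ℕ} (hN : 0 < N) {u : ℤ} (h : phi N u ≠ 0) : 0 ≤ u ∧ u + 1 < 2 * N := by
  have hN' : (0 : ℝ) < N := by exact_mod_cast hN
  have h1 : 0 < 1 - |(u : ℝ) + 1 - N| / N := by
    by_contra h2
    exact h (max_eq_left (not_lt.1 h2))
  have h2 : |(u : ℝ) + 1 - N| < N := by
    have : |(u : ℝ) + 1 - N| / N < 1 := by linarith
    rwa [div_lt_one hN'] at this
  rw [abs_lt] at h2
  constructor
  · have : (-1 : ℝ) < u := by linarith
    have : (-1 : ℤ) < u := by exact_mod_cast this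
    omega
  · have : (u : ℝ) + 1 < 2 * N := by linarith
    exact_mod_cast this

lemma phi_of_lt {N : ℕ} (hN : 0 < N) {v : ℕ} (hv : v < N) : phi N (v : ℤ) = ((v + 1 : ℕ) : ℝ) / N := by
  have hN' : (0 : ℝ) < N := by exact_mod_cast hN
  have hv' : ((v : ℝ) + 1) ≤ N := by exact_mod_cast hv
  unfold phi
  have : |((v : ℤ) : ℝ) + 1 - N| = N - (v + 1) := by
    rw [abs_of_nonpos]
    · push_cast; ring
    · push_cast; linarith
  rw [this, max_eq_right]
  · push_cast; field_simp; ring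
  · have : ((N : ℝ) - (v + 1)) / N ≤ 1 := by
      rw [div_le_one hN']; linarith [(Nat.cast_nonneg v : (0 : ℝ) ≤ v)]
    linarith

lemma phi_of_ge {N : ℕ} (hN : 0 < N) {v : ℕ} (hv : N ≤ v) (hv2 : v < 2 * N) :
    phi N (v : ℤ) = ((2 * N - 1 - v : ℕ) : ℝ) / N := by
  have hN' : (0 : ℝ) < N := by exact_mod_cast hN
  have hv' : (N : ℝ) ≤ v := by exact_mod_cast hv
  have hv2' : (v : ℝ) + 1 ≤ 2 * N := by exact_mod_cast hv2
  unfold phi
  have : |((v : ℤ) : ℝ) + 1 - N| = (v + 1) - N := by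
    rw [abs_of_nonneg]
    · push_cast; ring
    · push_cast; linarith
  have hc : ((2 * N - 1 - v : ℕ) : ℝ) = 2 * N - 1 - v := by
    rw [Nat.cast_sub (by omega), Nat.cast_sub (by omega)]; push_cast; ring
  rw [this, max_eq_right, hc]
  · field_simp; ring
  · have : (((v : ℝ) + 1) - N) / N ≤ 1 := by
      rw [div_le_one hN']; linarith
    linarith

lemma card_pairs {N : ℕ} (hN : 0 < N) {v : ℕ} (hv : v < 2 * N) :
    (((range N).filter (fun u => u ≤ v ∧ v < u + N)).card : ℝ) = N * phi N (v : ℤ) := by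
  have hN' : (0 : ℝ) < N := by exact_mod_cast hN
  rcases lt_or_ge v N with h | h
  · rw [phi_of_lt hN h]
    have : (range N).filter (fun u => u ≤ v ∧ v < u + N) = range (v + 1) := by
      ext u; simp only [mem_filter, mem_range]; omega
    rw [this, card_range]
    field_simp
  · rw [phi_of_ge hN h hv]
    have : (range N).filter (fun u => u ≤ v ∧ v < u + N) = Finset.Ico (v + 1 - N) N := by
      ext u; simp only [mem_filter, mem_range, Finset.mem_Ico]; omega
    rw [this, Nat.card_Ico]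
    have : N - (v + 1 - N) = 2 * N - 1 - v := by omega
    rw [this]
    field_simp

lemma phi_conv {M : Type*} [AddCommGroup M] [Module ℂ M] {N : ℕ} (hN : 0 < N) (F : ℕ → M) :
    ∑ u ∈ range N, ∑ u' ∈ range N, F (u + u')
      = (N : ℂ) • ∑ v ∈ range (2 * N), (phi N (v : ℤ) : ℂ) • F v := by
  have h1 : ∀ u ∈ range N, ∑ u' ∈ range N, F (u + u')
      = ∑ v ∈ range (2 * N), if u ≤ v ∧ v < u + N then F v else 0 := by
    intro u hu
    rw [← Finset.sum_filter]
    have : (range (2 * N)).filter (fun v => u ≤ v ∧ v < u + N) = (range N).map (addLeftEmbedding u) := by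
      ext v
      simp only [mem_filter, mem_range, mem_map, addLeftEmbedding_apply] at hu ⊢
      constructor
      · rintro ⟨h1, h2, h3⟩
        exact ⟨v - u, by omega, by omega⟩
      · rintro ⟨a, h1, h2⟩
        omega
    rw [this, Finset.sum_map]
    rfl
  rw [Finset.sum_congr rfl h1, Finset.sum_comm, Finset.smul_sum]
  refine Finset.sum_congr rfl fun v hv => ?_
  rw [← Finset.sum_filter, Finset.sum_const, smul_smul]
  have := card_pairs hN (mem_range.1 hv)
  have h2 : (N : ℂ) * (phi N (v : ℤ) : ℂ) = (((range N).filter (fun u => u ≤ v ∧ v < u + N)).card : ℂ) := by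
    rw [← Complex.ofReal_natCast, ← Complex.ofReal_mul, ← this]; simp
  rw [h2, Nat.cast_smul_eq_nsmul]

lemma ck_expand {M : Type*} [AddCommGroup M] [Module ℂ M] {N : ℕ} (hN : 0 < N) {ω : ℂ}
    (hω : IsPrimitiveRoot ω N) (F : ℕ → M) :
    (N : ℂ) • ∑ l ∈ range (2 * N * N), ck N ω (l : ℤ) • F l
      = ∑ b ∈ range N, ∑ u ∈ range N, ∑ u' ∈ range N, ω ^ (b * (u + u')) • F (2 * N * b + (u + u')) := by
  have h1 : ∑ l ∈ range (2 * N * N), ck N ω (l : ℤ) • F l
      = ∑ b ∈ range N, ∑ v ∈ range (2 * N), (phi N (v : ℤ) : ℂ) • (ω ^ (b * v) • F (2 * N * b + v)) := by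
    simp_rw [ck, Finset.sum_smul]
    rw [Finset.sum_comm]
    refine Finset.sum_congr rfl fun b hb => ?_
    rw [mem_range] at hb
    have hsub : (range (2 * N)).map (addLeftEmbedding (2 * N * b)) ⊆ range (2 * N * N) := by
      intro l hl
      simp only [mem_map, mem_range, addLeftEmbedding_apply] at hl ⊢
      obtain ⟨a, ha, rfl⟩ := hl
      calc 2 * N * b + a < 2 * N * b + 2 * N := by omega
        _ = 2 * N * (b + 1) := by ring
        _ ≤ 2 * N * N := Nat.mul_le_mul_left _ hb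
    rw [← Finset.sum_subset hsub, Finset.sum_map]
    · refine Finset.sum_congr rfl fun v hv => ?_
      rw [addLeftEmbedding_apply, smul_smul, mul_comm]
      have e1 : (((2 * N * b + v : ℕ) : ℤ) - 2 * N * b) = (v : ℤ) := by push_cast; ring
      have e2 : ω ^ ((b : ℤ) * ((2 * N * b + v : ℕ) : ℤ)) = ω ^ (b * v) := by
        have : ((b : ℤ) * ((2 * N * b + v : ℕ) : ℤ)) = ((N * (2 * b * b) + b * v : ℕ) : ℤ) := by
          push_cast; ring
        rw [this, zpow_natCast, pow_add, pow_mul, hω.pow_eq_one, one_pow, one_mul]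
      rw [e1, e2]
    · intro l hl hl2
      have : phi N ((l : ℤ) - 2 * N * b) = 0 := by
        by_contra h
        obtain ⟨h3, h4⟩ := phi_supp hN h
        apply hl2
        simp only [mem_map, mem_range, addLeftEmbedding_apply]
        refine ⟨l - 2 * N * b, ?_, ?_⟩
        · zify at *
          have : ((l - 2 * N * b : ℕ) : ℤ) = (l : ℤ) - 2 * N * b := by
            rw [Nat.cast_sub]; push_cast; ring
            zify; linarith
          rw [this]; linarith
        · zify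
          have : ((l - 2 * N * b : ℕ) : ℤ) = (l : ℤ) - 2 * N * b := by
            rw [Nat.cast_sub]; push_cast; ring
            zify; linarith
          rw [this]; ring
      rw [this]; simp
  rw [h1, Finset.smul_sum]
  refine Finset.sum_congr rfl fun b _ => ?_
  rw [← phi_conv hN (fun v => ω ^ (b * v) • F (2 * N * b + v))]


/-! ### Flatness -/

lemma ck_flat_scalar {N : ℕ} (hN : 0 < N) {ω : ℂ} (hω : IsPrimitiveRoot ω N) {z : ℂ}
    (hz : ‖z‖ = 1) : ‖∑ l ∈ range (2 * N * N), ck N ω (l : ℤ) * z ^ l‖ ≤ N := by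
  have hN' : (0 : ℝ) < N := by exact_mod_cast hN
  have h := ck_expand (M := ℂ) hN hω (fun l => z ^ l)
  simp only [smul_eq_mul] at h
  have h2 : ∀ b : ℕ, ∑ u ∈ range N, ∑ u' ∈ range N, ω ^ (b * (u + u')) * z ^ (2 * N * b + (u + u'))
      = z ^ (2 * N * b) * ((∑ u ∈ range N, ω ^ (b * u) • z ^ u) * (∑ u ∈ range N, ω ^ (b * u) • z ^ u)) := by
    intro b
    rw [Finset.sum_mul_sum, Finset.mul_sum]
    refine Finset.sum_congr rfl fun u _ => ?_
    rw [Finset.mul_sum]
    refine Finset.sum_congr rfl fun u' _ => ?_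
    simp only [smul_eq_mul]
    ring
  simp_rw [h2] at h
  have h3 : ‖∑ b ∈ range N, z ^ (2 * N * b) * ((∑ u ∈ range N, ω ^ (b * u) • z ^ u) * (∑ u ∈ range N, ω ^ (b * u) • z ^ u))‖
      ≤ N * N := by
    calc _ ≤ ∑ b ∈ range N, ‖∑ u ∈ range N, ω ^ (b * u) • z ^ u‖ ^ 2 := by
          refine (norm_sum_le _ _).trans (Finset.sum_le_sum fun b _ => ?_)
          rw [norm_mul, norm_pow, hz, one_pow, one_mul, norm_mul, sq]
      _ = N * ∑ u ∈ range N, ‖z ^ u‖ ^ 2 := parseval hω _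
      _ = N * N := by simp [norm_pow, hz]
  rw [← h, norm_mul, Complex.norm_natCast] at h3
  exact le_of_mul_le_mul_left h3 hN'

section op

variable {E : Type*} [NormedAddCommGroup E] [InnerProductSpace ℂ E]

/-- modulated averages -/
noncomputable def VV (N : ℕ) (ω : ℂ) (b : ℕ) (τ : ℤ → E →ₗᵢ[ℂ] E) (h : E) : E :=
  ∑ u ∈ range N, ω ^ (b * u) • τ (u : ℤ) h

lemma VV_parseval {N : ℕ} {ω : ℂ} (hω : IsPrimitiveRoot ω N) (τ : ℤ → E →ₗᵢ[ℂ] E) (h : E) :
    ∑ b ∈ range N, ‖VV N ω b τ h‖ ^ 2 = (N : ℝ) ^ 2 * ‖h‖ ^ 2 := by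
  have := parseval hω (fun u => τ (u : ℤ) h)
  unfold VV
  rw [this]
  simp only [LinearIsometry.norm_map, Finset.sum_const, card_range, nsmul_eq_mul]
  ring

lemma flat_op {N : ℕ} (hN : 0 < N) {ω : ℂ} (hω : IsPrimitiveRoot ω N) (τ : ℤ → E →ₗᵢ[ℂ] E)
    (hadd : ∀ a b g, τ (a + b) g = τ a (τ b g)) (h0 : ∀ g, τ 0 g = g) (g : E) (o : ℤ) :
    ‖∑ l ∈ range (2 * N * N), ck N ω (l : ℤ) • τ (o + l) g‖ ≤ N * ‖g‖ := by
  have hN' : (0 : ℝ) < N := by exact_mod_cast hN
  have hconj : ∀ n : ℕ, (starRingEnd ℂ) (ω ^ n) = ω⁻¹ ^ n := by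
    intro n
    have hnorm : ‖ω‖ = 1 := hω.norm'_eq_one hN.ne'
    rw [map_pow]
    congr 1
    rw [Complex.inv_def, Complex.normSq_eq_norm_sq, hnorm]; simp
  have hinner : ∀ (c : ℤ) (x y : E), ⟪x, τ c y⟫ = ⟪τ (-c) x, y⟫ := by
    intro c x y
    have : x = τ c (τ (-c) x) := by rw [← hadd, add_neg_cancel, h0]
    conv_lhs => rw [this]
    rw [LinearIsometry.inner_map_map]
  set τ' : ℤ → E →ₗᵢ[ℂ] E := fun a => τ (-a) with hτ'
  have hVadj : ∀ (b : ℕ) (x y : E), ⟪x, VV N ω b τ y⟫ = ⟪VV N ω⁻¹ b τ' x, y⟫ := by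
    intro b x y
    unfold VV
    rw [inner_sum, sum_inner]
    refine Finset.sum_congr rfl fun u _ => ?_
    rw [inner_smul_right, inner_smul_left, hinner, ← hconj, Complex.conj_conj]
  have hVcomm : ∀ (b : ℕ) (c : ℤ) (x : E), VV N ω⁻¹ b τ' (τ c x) = τ c (VV N ω⁻¹ b τ' x) := by
    intro b c x
    unfold VV
    rw [map_sum]
    refine Finset.sum_congr rfl fun u _ => ?_
    rw [map_smul, hτ']
    simp only
    rw [← hadd, ← hadd, add_comm]
  set S : E := ∑ l ∈ range (2 * N * N), ck N ω (l : ℤ) • τ (o + l) g with hS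
  have hexp : (N : ℂ) • S = ∑ b ∈ range N, τ (o + 2 * N * b) (VV N ω b τ (VV N ω b τ g)) := by
    rw [hS, ck_expand hN hω (fun l => τ (o + (l : ℤ)) g)]
    refine Finset.sum_congr rfl fun b _ => ?_
    unfold VV
    rw [map_sum]
    refine Finset.sum_congr rfl fun u _ => ?_
    rw [map_sum, Finset.smul_sum, map_sum]
    refine Finset.sum_congr rfl fun u' _ => ?_
    rw [map_smul, map_smul, map_smul, smul_smul, ← pow_add, ← mul_add, ← hadd, ← hadd]
    congr 2
    push_cast; ring_nf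
  have hb : ∀ h : E, ‖⟪h, (N : ℂ) • S⟫‖ ≤ (N : ℝ) ^ 2 * (‖h‖ * ‖g‖) := by
    intro h
    rw [hexp, inner_sum]
    calc ‖∑ b ∈ range N, ⟪h, τ (o + 2 * N * b) (VV N ω b τ (VV N ω b τ g))⟫‖
        ≤ ∑ b ∈ range N, ‖VV N ω⁻¹ b τ' h‖ * ‖VV N ω b τ g‖ := by
          refine (norm_sum_le _ _).trans (Finset.sum_le_sum fun b _ => ?_)
          rw [hinner, hVadj, hVcomm]
          refine (norm_inner_le_norm _ _).trans ?_
          rw [LinearIsometry.norm_map]
      _ ≤ √(∑ b ∈ range N, ‖VV N ω⁻¹ b τ' h‖ ^ 2) * √(∑ b ∈ range N, ‖VV N ω b τ g‖ ^ 2) :=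
          Real.sum_mul_le_sqrt_mul_sqrt _ _ _
      _ = (N : ℝ) ^ 2 * (‖h‖ * ‖g‖) := by
          rw [VV_parseval hω, VV_parseval hω.inv, ← mul_pow, ← mul_pow,
            Real.sqrt_sq (by positivity), Real.sqrt_sq (by positivity)]
          ring
  have h1 := hb S
  rw [inner_smul_right, norm_mul, Complex.norm_natCast, inner_self_eq_norm_sq_to_K] at h1
  have h2 : ‖((‖S‖ : ℂ)) ^ 2‖ = ‖S‖ ^ 2 := by simp
  have h3 : (N : ℝ) * ‖S‖ ^ 2 ≤ (N : ℝ) ^ 2 * (‖S‖ * ‖g‖) := by
    rw [← h2]; exact h1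
  rcases eq_or_lt_of_le (norm_nonneg S) with h4 | h4
  · rw [← h4]; positivity
  · have : (N * ‖S‖) * ‖S‖ ≤ (N * ‖S‖) * (N * ‖g‖) := by nlinarith
    exact le_of_mul_le_mul_left this (by positivity)

end op


/-! ### Cross-correlation -/

lemma phi_lip {N : ℕ} (hN : 0 < N) (u l : ℤ) : |phi N (u + l) - phi N u| ≤ |(l : ℝ)| / N := by
  have hN' : (0 : ℝ) < N := by exact_mod_cast hN
  unfold phi
  refine (abs_max_sub_max_le_max _ _ _ _).trans ?_
  rw [sub_self, abs_zero]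
  refine max_le (by positivity) ?_
  have : (1 - |((u + l : ℤ) : ℝ) + 1 - N| / N) - (1 - |(u : ℝ) + 1 - N| / N)
      = (|(u : ℝ) + 1 - N| - |((u + l : ℤ) : ℝ) + 1 - N|) / N := by ring
  rw [this, abs_div, abs_of_pos hN']
  refine div_le_div_of_nonneg_right ?_ hN'.le
  have h := (abs_abs_sub_abs_le_abs_sub ((u : ℝ) + 1 - N) (((u + l : ℤ) : ℝ) + 1 - N))
  refine h.trans (le_of_eq ?_)
  push_cast
  rw [show (u : ℝ) + 1 - N - (u + l + 1 - N) = -(l : ℝ) by ring, abs_neg]

lemma phi_card {M : ℕ} (hM : 0 < M) (y : ℤ) :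
    ((range M).filter (fun b : ℕ => phi M (y - 2 * M * b) ≠ 0)).card ≤ 1 := by
  rw [Finset.card_le_one]
  intro a ha b hb
  rw [mem_filter] at ha hb
  obtain ⟨h1, h2⟩ := phi_supp hM ha.2
  obtain ⟨h3, h4⟩ := phi_supp hM hb.2
  have hM' : (0 : ℤ) < M := by exact_mod_cast hM
  by_contra hab
  rcases lt_or_gt_of_ne hab with h | h
  · have : (a : ℤ) + 1 ≤ b := by exact_mod_cast h
    nlinarith
  · have : (b : ℤ) + 1 ≤ a := by exact_mod_cast h
    nlinarith

lemma phi_sum_le {M : ℕ} (hM : 0 < M) (y : ℤ) :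
    ∑ b ∈ range M, phi M (y - 2 * M * b) ≤ 1 := by
  rw [← Finset.sum_filter_ne_zero]
  calc _ ≤ ∑ b ∈ (range M).filter (fun b : ℕ => phi M (y - 2 * M * b) ≠ 0), (1 : ℝ) :=
        Finset.sum_le_sum fun b _ => phi_le_one _ _
    _ = (((range M).filter (fun b : ℕ => phi M (y - 2 * M * b) ≠ 0)).card : ℝ) := by simp
    _ ≤ 1 := by exact_mod_cast phi_card hM y

lemma phi_diff_sum {M : ℕ} (hM : 0 < M) (y l : ℤ) :
    ∑ b ∈ range M, |phi M (y + l - 2 * M * b) - phi M (y - 2 * M * b)| ≤ 2 * (|(l : ℝ)| / M) := by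
  have hb : ∀ b ∈ range M, |phi M (y + l - 2 * M * b) - phi M (y - 2 * M * b)|
      ≤ (if phi M (y + l - 2 * M * b) ≠ 0 then |(l : ℝ)| / M else 0)
        + (if phi M (y - 2 * M * b) ≠ 0 then |(l : ℝ)| / M else 0) := by
    intro b _
    have hpos : 0 ≤ |(l : ℝ)| / M := by positivity
    have h := phi_lip hM (y - 2 * M * b) l
    rw [show y - 2 * M * b + l = y + l - 2 * M * b by ring] at h
    split_ifs with h1 h2 h2
    · linarith
    · linarith
    · linarith
    · push Not at h1 h2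
      rw [h1, h2]; simp
  refine (Finset.sum_le_sum hb).trans ?_
  rw [Finset.sum_add_distrib, ← Finset.sum_filter, ← Finset.sum_filter, Finset.sum_const,
    Finset.sum_const, nsmul_eq_mul, nsmul_eq_mul]
  have h1 : (((range M).filter (fun b : ℕ => phi M (y + l - 2 * M * b) ≠ 0)).card : ℝ) ≤ 1 := by
    exact_mod_cast phi_card hM (y + l)
  have h2 : (((range M).filter (fun b : ℕ => phi M (y - 2 * M * b) ≠ 0)).card : ℝ) ≤ 1 := by
    exact_mod_cast phi_card hM y
  have hpos : 0 ≤ |(l : ℝ)| / M := by positivity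
  nlinarith

lemma ck_norm_eq {N : ℕ} (hN : 0 < N) {ω : ℂ} (hω : IsPrimitiveRoot ω N) {b : ℕ} (hb : b < N) {v : ℤ}
    (hv0 : 0 ≤ v) (hv : v < 2 * N) :
    ‖ck N ω (2 * N * b + v)‖ = phi N v := by
  have hnorm : ‖ω‖ = 1 := hω.norm'_eq_one hN.ne'
  unfold ck
  rw [Finset.sum_eq_single b]
  · rw [norm_mul, norm_zpow, hnorm, one_zpow, one_mul, Complex.norm_real, Real.norm_eq_abs,
      abs_of_nonneg (phi_nonneg _ _)]
    congr 1
    ring
  · intro c _ hcb
    have : phi N (2 * N * b + v - 2 * N * c) = 0 := by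
      by_contra h
      obtain ⟨h1, h2⟩ := phi_supp hN h
      have hN' : (0 : ℤ) < N := by exact_mod_cast hN
      rcases lt_or_gt_of_ne hcb with h | h
      · have : (c : ℤ) + 1 ≤ b := by exact_mod_cast h
        nlinarith
      · have : (b : ℤ) + 1 ≤ c := by exact_mod_cast h
        nlinarith
    rw [this]; simp
  · intro h; exact absurd (mem_range.2 hb) h

lemma ck_norm_le {N : ℕ} (hN : 0 < N) {ω : ℂ} (hω : IsPrimitiveRoot ω N) (y : ℤ) :
    ‖ck N ω y‖ ≤ 1 := by
  have hnorm : ‖ω‖ = 1 := hω.norm'_eq_one hN.ne'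
  unfold ck
  refine (norm_sum_le _ _).trans ?_
  refine le_trans (le_of_eq ?_) (phi_sum_le hN y)
  refine Finset.sum_congr rfl fun b _ => ?_
  rw [norm_mul, norm_zpow, hnorm, one_zpow, one_mul, Complex.norm_real, Real.norm_eq_abs,
      abs_of_nonneg (phi_nonneg _ _)]

lemma ck_supp {N : ℕ} (hN : 0 < N) {ω : ℂ} {y : ℤ} (h : ck N ω y ≠ 0) :
    0 ≤ y ∧ y < 2 * N * N := by
  unfold ck at h
  obtain ⟨b, hb, h1⟩ := Finset.exists_ne_zero_of_sum_ne_zero h
  have h2 : phi N (y - 2 * N * b) ≠ 0 := by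
    intro h3; rw [h3] at h1; simp at h1
  obtain ⟨h3, h4⟩ := phi_supp hN h2
  have hb' : (b : ℤ) + 1 ≤ N := by exact_mod_cast mem_range.1 hb
  have hN' : (0 : ℤ) < N := by exact_mod_cast hN
  constructor
  · have : (0 : ℤ) ≤ 2 * N * b := by positivity
    linarith
  · nlinarith

lemma corr {N M : ℕ} (hN : 0 < N) (hM : 0 < M) (hNM : 8 * N ^ 3 ≤ M) {ω Ω : ℂ}
    (hω : IsPrimitiveRoot ω N) (hΩ : IsPrimitiveRoot Ω M) (d : ℤ) :
    ‖∑ l ∈ range (2 * N * N), (starRingEnd ℂ) (ck N ω (l : ℤ)) * ck M Ω (d + l)‖ ≤ 2 * N := by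
  have hN' : (0 : ℝ) < N := by exact_mod_cast hN
  have hM' : (0 : ℝ) < M := by exact_mod_cast hM
  have hnormΩ : ‖Ω‖ = 1 := hΩ.norm'_eq_one hM.ne'
  have hΩ0 : Ω ≠ 0 := hΩ.ne_zero hM.ne'
  have hsplit : ∀ l : ℕ, ck M Ω (d + l)
      = (∑ b ∈ range M, Ω ^ ((b : ℤ) * d) * (phi M (d - 2 * M * b) : ℂ) * (Ω ^ b) ^ l)
        + ∑ b ∈ range M, Ω ^ ((b : ℤ) * (d + l))
          * ((phi M (d + l - 2 * M * b) - phi M (d - 2 * M * b) : ℝ) : ℂ) := by
    intro l
    unfold ck
    rw [← Finset.sum_add_distrib]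
    refine Finset.sum_congr rfl fun b _ => ?_
    have : Ω ^ ((b : ℤ) * (d + l)) = Ω ^ ((b : ℤ) * d) * (Ω ^ b) ^ l := by
      rw [mul_add, zpow_add₀ hΩ0, ← pow_mul]
      congr 1
    rw [this]; push_cast; ring
  have hsplit2 : ∑ l ∈ range (2 * N * N), (starRingEnd ℂ) (ck N ω (l : ℤ)) * ck M Ω (d + l)
      = ∑ l ∈ range (2 * N * N), (starRingEnd ℂ) (ck N ω (l : ℤ)) *
          (∑ b ∈ range M, Ω ^ ((b : ℤ) * d) * (phi M (d - 2 * M * b) : ℂ) * (Ω ^ b) ^ l)
        + ∑ l ∈ range (2 * N * N), (starRingEnd ℂ) (ck N ω (l : ℤ)) *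
          (∑ b ∈ range M, Ω ^ ((b : ℤ) * (d + l))
          * ((phi M (d + l - 2 * M * b) - phi M (d - 2 * M * b) : ℝ) : ℂ)) := by
    rw [← Finset.sum_add_distrib]
    refine Finset.sum_congr rfl fun l _ => ?_
    rw [hsplit, mul_add]
  rw [hsplit2]
  have hmain : ‖∑ l ∈ range (2 * N * N), (starRingEnd ℂ) (ck N ω (l : ℤ)) *
      (∑ b ∈ range M, Ω ^ ((b : ℤ) * d) * (phi M (d - 2 * M * b) : ℂ) * (Ω ^ b) ^ l)‖ ≤ N := by
    have h1 : ∑ l ∈ range (2 * N * N), (starRingEnd ℂ) (ck N ω (l : ℤ)) *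
      (∑ b ∈ range M, Ω ^ ((b : ℤ) * d) * (phi M (d - 2 * M * b) : ℂ) * (Ω ^ b) ^ l)
      = ∑ b ∈ range M, Ω ^ ((b : ℤ) * d) * (phi M (d - 2 * M * b) : ℂ) *
        ∑ l ∈ range (2 * N * N), (starRingEnd ℂ) (ck N ω (l : ℤ)) * (Ω ^ b) ^ l := by
      simp_rw [Finset.mul_sum]
      rw [Finset.sum_comm]
      refine Finset.sum_congr rfl fun b _ => Finset.sum_congr rfl fun l _ => ?_
      ring
    rw [h1]
    have h2 : ∀ b ∈ range M, ‖Ω ^ ((b : ℤ) * d) * (phi M (d - 2 * M * b) : ℂ) *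
        ∑ l ∈ range (2 * N * N), (starRingEnd ℂ) (ck N ω (l : ℤ)) * (Ω ^ b) ^ l‖
        ≤ phi M (d - 2 * M * b) * N := by
      intro b _
      rw [norm_mul, norm_mul, norm_zpow, hnormΩ, one_zpow, one_mul, Complex.norm_real,
        Real.norm_eq_abs, abs_of_nonneg (phi_nonneg _ _)]
      refine mul_le_mul_of_nonneg_left ?_ (phi_nonneg _ _)
      have h3 := ck_flat_scalar hN hω (z := (starRingEnd ℂ) (Ω ^ b)) (by
        rw [RCLike.norm_conj, norm_pow, hnormΩ, one_pow])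
      have h4 : ∑ l ∈ range (2 * N * N), (starRingEnd ℂ) (ck N ω (l : ℤ)) * (Ω ^ b) ^ l
          = (starRingEnd ℂ) (∑ l ∈ range (2 * N * N), ck N ω (l : ℤ) * ((starRingEnd ℂ) (Ω ^ b)) ^ l) := by
        rw [map_sum]
        refine Finset.sum_congr rfl fun l _ => ?_
        rw [map_mul, map_pow, Complex.conj_conj]
      rw [h4, RCLike.norm_conj]
      exact h3
    refine (norm_sum_le _ _).trans ((Finset.sum_le_sum h2).trans ?_)
    rw [← Finset.sum_mul]
    have := phi_sum_le hM d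
    nlinarith
  have herr : ‖∑ l ∈ range (2 * N * N), (starRingEnd ℂ) (ck N ω (l : ℤ)) *
      (∑ b ∈ range M, Ω ^ ((b : ℤ) * (d + l))
          * ((phi M (d + l - 2 * M * b) - phi M (d - 2 * M * b) : ℝ) : ℂ))‖ ≤ N := by
    have h2 : ∀ l ∈ range (2 * N * N), ‖(starRingEnd ℂ) (ck N ω (l : ℤ)) *
      (∑ b ∈ range M, Ω ^ ((b : ℤ) * (d + l))
          * ((phi M (d + l - 2 * M * b) - phi M (d - 2 * M * b) : ℝ) : ℂ))‖
        ≤ 2 * ((2 * N * N : ℝ) / M) := by
      intro l hl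
      rw [norm_mul, RCLike.norm_conj]
      have h3 : ‖∑ b ∈ range M, Ω ^ ((b : ℤ) * (d + l))
          * ((phi M (d + l - 2 * M * b) - phi M (d - 2 * M * b) : ℝ) : ℂ)‖ ≤ 2 * (|((l : ℤ) : ℝ)| / M) := by
        refine (norm_sum_le _ _).trans (le_trans (le_of_eq ?_) (phi_diff_sum hM d l))
        refine Finset.sum_congr rfl fun b _ => ?_
        rw [norm_mul, norm_zpow, hnormΩ, one_zpow, one_mul, Complex.norm_real, Real.norm_eq_abs]
      have h4 : |((l : ℤ) : ℝ)| ≤ 2 * N * N := by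
        have : ((l : ℕ) : ℝ) ≤ ((2 * N * N : ℕ) : ℝ) := by exact_mod_cast (mem_range.1 hl).le
        push_cast at this ⊢
        rw [abs_of_nonneg (by positivity)]
        exact this
      calc ‖ck N ω (l : ℤ)‖ * ‖∑ b ∈ range M, Ω ^ ((b : ℤ) * (d + l))
          * ((phi M (d + l - 2 * M * b) - phi M (d - 2 * M * b) : ℝ) : ℂ)‖
          ≤ 1 * (2 * (|((l : ℤ) : ℝ)| / M)) := by
            refine mul_le_mul (ck_norm_le hN hω _) h3 (norm_nonneg _) zero_le_one
        _ ≤ 2 * ((2 * N * N : ℝ) / M) := by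
            rw [one_mul]; gcongr
    refine (norm_sum_le _ _).trans ((Finset.sum_le_sum h2).trans ?_)
    rw [Finset.sum_const, card_range, nsmul_eq_mul]
    have h5 : (8 : ℝ) * N ^ 3 ≤ M := by exact_mod_cast hNM
    push_cast
    rw [show (2 * (N : ℝ) * N) * (2 * (2 * N * N / M)) = (8 * N ^ 3) * N / M by ring,
      div_le_iff₀ hM']
    nlinarith
  refine (norm_add_le _ _).trans ?_
  linarith



/-- square summable sequences on the integers -/
abbrev E : Type := lp (fun _ : ℤ => ℂ) 2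

lemma toReal_two_pos : 0 < (2 : ℝ≥0∞).toReal := by simp

lemma norm_sq_E (f : E) : ‖f‖ ^ 2 = ∑' k, ‖f k‖ ^ 2 := by
  have := lp.norm_rpow_eq_tsum toReal_two_pos f
  simpa using this

/-- translation by `l` -/
noncomputable def sh (l : ℤ) : E →ₗᵢ[ℂ] E where
  toFun f := ⟨fun k => f (k - l), by
    have h := (memℓp_gen_iff toReal_two_pos).1 (lp.memℓp f)
    exact memℓp_gen ((Equiv.subRight l).summable_iff.2 h)⟩
  map_add' f g := by ext k; simp
  map_smul' c f := by ext k; simp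
  norm_map' f := by
    have h1 : ‖(⟨fun k => f (k - l), by
      have h := (memℓp_gen_iff toReal_two_pos).1 (lp.memℓp f)
      exact memℓp_gen ((Equiv.subRight l).summable_iff.2 h)⟩ : E)‖ ^ 2 = ‖f‖ ^ 2 := by
      rw [norm_sq_E, norm_sq_E]
      exact (Equiv.subRight l).tsum_eq (fun k => ‖f k‖ ^ 2)
    exact (pow_left_inj₀ (norm_nonneg _) (norm_nonneg _) two_ne_zero).1 h1

lemma sh_apply (l : ℤ) (f : E) (k : ℤ) : sh l f k = f (k - l) := rfl

lemma sh_add (a b : ℤ) (g : E) : sh (a + b) g = sh a (sh b g) := by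
  ext k; rw [sh_apply, sh_apply, sh_apply, sub_sub]

lemma sh_zero (g : E) : sh 0 g = g := by
  ext k; rw [sh_apply, sub_zero]

lemma sum_apply {ι : Type*} (s : Finset ι) (F : ι → E) (k : ℤ) :
    (∑ i ∈ s, F i : E) k = ∑ i ∈ s, F i k := by
  rw [lp.coeFn_sum, Finset.sum_apply]

/-- basis vector -/
noncomputable def ee (x : ℤ) : E := lp.single 2 x (1 : ℂ)

lemma ee_apply (x k : ℤ) : ee x k = if k = x then 1 else 0 := by
  unfold ee
  rw [lp.single_apply]
  split_ifs with h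
  · subst h; simp
  · simp [h]

lemma norm_sq_sum_ee (S : Finset ℤ) (g : ℤ → ℂ) :
    ‖∑ x ∈ S, g x • ee x‖ ^ 2 = ∑ x ∈ S, ‖g x‖ ^ 2 := by
  have h := lp.norm_sum_single (E := fun _ : ℤ => ℂ) toReal_two_pos g S
  have h2 : ∀ x, g x • ee x = lp.single 2 x (g x) := by
    intro x
    unfold ee
    rw [← lp.single_smul, smul_eq_mul, mul_one]
  simp_rw [h2]
  simpa using h

lemma inner_ee (x : ℤ) (f : E) : ⟪ee x, f⟫ = f x := by
  unfold ee
  rw [lp.inner_single_left]
  simp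

lemma sum_norm_sq_le (f : E) (s : Finset ℤ) : ∑ k ∈ s, ‖f k‖ ^ 2 ≤ ‖f‖ ^ 2 := by
  have := lp.sum_rpow_le_norm_rpow toReal_two_pos f s
  simpa using this



/-! ### Scales -/

def NN (j : ℕ) : ℕ := 2 ^ (8 * 4 ^ j)

noncomputable def om (j : ℕ) : ℂ := Complex.exp (2 * Real.pi * I / NN j)

def WW (j : ℕ) : ℕ := 2 * NN j * NN j

noncomputable def KK (j : ℕ) : ℝ := (NN j : ℝ) ^ 2

lemma NN_pos (j : ℕ) : 0 < NN j := by unfold NN; positivity

lemma om_prim (j : ℕ) : IsPrimitiveRoot (om j) (NN j) :=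
  Complex.isPrimitiveRoot_exp _ (NN_pos j).ne'

lemma KK_pos (j : ℕ) : 0 < KK j := by
  have : (0 : ℝ) < NN j := by exact_mod_cast NN_pos j
  unfold KK; positivity

lemma WW_eq (j : ℕ) : (WW j : ℝ) = 2 * KK j := by unfold WW KK; push_cast; ring

lemma WW_pos (j : ℕ) : 0 < WW j := by
  have := NN_pos j
  unfold WW; positivity

lemma NN_strictMono : StrictMono NN := by
  intro i j h
  unfold NN
  have : 4 ^ i < 4 ^ j := Nat.pow_lt_pow_right (by norm_num) h
  exact Nat.pow_lt_pow_right (by norm_num) (by omega)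

lemma NN_growth {i j : ℕ} (h : i < j) : 8 * (NN i) ^ 3 ≤ NN j := by
  unfold NN
  have h1 : 4 ^ (i + 1) ≤ 4 ^ j := Nat.pow_le_pow_right (by norm_num) h
  have h2 : 0 < 4 ^ i := by positivity
  rw [← pow_mul, show (8 : ℕ) = 2 ^ 3 by norm_num, ← pow_add]
  apply Nat.pow_le_pow_right (by norm_num)
  rw [pow_succ] at h1
  omega

lemma four_pow_ge (j : ℕ) : j + 1 ≤ 4 ^ j := by
  induction j with
  | zero => norm_num
  | succ n ih => rw [pow_succ]; omega

lemma KK_growth (j : ℕ) : 4 ^ (j + 1) * KK j ≤ KK (j + 1) := by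
  have h : 4 ^ (j + 1) * (NN j) ^ 2 ≤ (NN (j + 1)) ^ 2 := by
    unfold NN
    rw [← pow_mul, ← pow_mul, show (4 : ℕ) ^ (j + 1) = 2 ^ (2 * (j + 1)) by rw [pow_mul]; norm_num,
      ← pow_add]
    apply Nat.pow_le_pow_right (by norm_num)
    have := four_pow_ge j
    have h4 : (2 : ℕ) ^ (2 * (j + 1)) = 4 * 4 ^ j := by rw [pow_mul]; norm_num [pow_succ, mul_comm]
    rw [h4]
    omega
  unfold KK
  exact_mod_cast h

lemma KK_growth' {i j : ℕ} (h : i < j) : 4 ^ j * KK i ≤ KK j := by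
  induction j with
  | zero => omega
  | succ n ih =>
    rcases Nat.lt_succ_iff_lt_or_eq.1 h with h1 | h1
    · have h2 := ih h1
      have h3 := KK_growth n
      have h4 := KK_pos i
      have h5 : (1 : ℝ) ≤ 4 ^ n := one_le_pow₀ (by norm_num)
      have h6 : KK i ≤ KK n := by nlinarith
      calc (4 : ℝ) ^ (n + 1) * KK i ≤ 4 ^ (n + 1) * KK n := by gcongr
        _ ≤ _ := h3
    · subst h1; exact KK_growth _

lemma NN_large (i : ℕ) : 32 * 8 ^ i ≤ NN i := by
  unfold NN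
  rw [show (32 : ℕ) = 2 ^ 5 by norm_num, show (8 : ℕ) ^ i = 2 ^ (3 * i) by rw [pow_mul]; norm_num,
    ← pow_add]
  apply Nat.pow_le_pow_right (by norm_num)
  have := four_pow_ge i
  omega

lemma KK_sum (J : ℕ) : ∑ j ∈ range J, KK j ≤ KK J := by
  induction J with
  | zero => simpa using (KK_pos 0).le
  | succ n ih =>
    rw [Finset.sum_range_succ]
    have h3 := KK_growth n
    have h5 : (4 : ℝ) ≤ 4 ^ (n + 1) := by
      calc (4 : ℝ) = 4 ^ 1 := by norm_num
        _ ≤ 4 ^ (n + 1) := pow_le_pow_right₀ (by norm_num) (by omega)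
    have := KK_pos n
    nlinarith

lemma KK_sum_le (J : ℕ) {w : ℝ} (hw : 0 ≤ w) :
    ∑ j ∈ range J, (if KK j ≤ w then (WW j : ℝ) else 0) ≤ 4 * w := by
  have h : ∑ j ∈ range J, (if KK j ≤ w then KK j else 0) ≤ 2 * w := by
    induction J with
    | zero => simpa using hw
    | succ n ih =>
      rw [Finset.sum_range_succ]
      split_ifs with h
      · have h1 : ∑ j ∈ range n, (if KK j ≤ w then KK j else 0) ≤ ∑ j ∈ range n, KK j := by
          refine Finset.sum_le_sum fun j _ => ?_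
          split_ifs
          · exact le_rfl
          · exact (KK_pos j).le
        have := KK_sum n
        linarith
      · linarith
  have h2 : ∑ j ∈ range J, (if KK j ≤ w then (WW j : ℝ) else 0)
      = 2 * ∑ j ∈ range J, (if KK j ≤ w then KK j else 0) := by
    rw [Finset.mul_sum]
    refine Finset.sum_congr rfl fun j _ => ?_
    rw [WW_eq]; split_ifs <;> ring
  rw [h2]; linarith

lemma WW_growth {i j : ℕ} (h : i < j) : (3 : ℝ) * WW i ≤ WW j := by
  rw [WW_eq, WW_eq]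
  have h1 := KK_growth' h
  have h2 := KK_pos i
  have h5 : (4 : ℝ) ≤ 4 ^ j := by
      calc (4 : ℝ) = 4 ^ 1 := by norm_num
        _ ≤ 4 ^ j := pow_le_pow_right₀ (by norm_num) (by omega)
  nlinarith




/-! ### The operators at one scale -/

/-- kernel coefficient at scale `j` -/
noncomputable def cc (j : ℕ) (l : ℤ) : ℂ := ck (NN j) (om j) l

/-- one scale operator on functions on the integers -/
noncomputable def kop (p : ℝ) (j : ℕ) (g : ℤ → ℂ) (k : ℤ) : ℂ :=
  ((KK j ^ (-(1 / p)) : ℝ) : ℂ) * ∑ l ∈ range (WW j), cc j (l : ℤ) * g (k - ((WW j : ℤ) + l))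

/-- one scale operator on square summable sequences -/
noncomputable def TT (p : ℝ) (j : ℕ) (v : E) : E :=
  ((KK j ^ (-(1 / p)) : ℝ) : ℂ) • ∑ l ∈ range (WW j), cc j (l : ℤ) • sh ((WW j : ℤ) + l) v

lemma TT_apply (p : ℝ) (j : ℕ) (v : E) (k : ℤ) : TT p j v k = kop p j v k := by
  unfold TT kop
  rw [lp.coeFn_smul, Pi.smul_apply, sum_apply, smul_eq_mul]
  rfl

lemma TT_sum {ι : Type*} (p : ℝ) (j : ℕ) (s : Finset ι) (c : ι → ℂ) (v : ι → E) :
    TT p j (∑ i ∈ s, c i • v i) = ∑ i ∈ s, c i • TT p j (v i) := by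
  unfold TT
  simp_rw [map_sum, map_smul, Finset.smul_sum]
  rw [Finset.sum_comm]
  refine Finset.sum_congr rfl fun i _ => Finset.sum_congr rfl fun l _ => ?_
  rw [smul_smul, smul_smul, smul_smul, smul_smul]
  congr 1
  ring

lemma TT_add (p : ℝ) (j : ℕ) (v w : E) : TT p j (v + w) = TT p j v + TT p j w := by
  unfold TT
  simp_rw [map_add, smul_add, Finset.sum_add_distrib, smul_add]

lemma TT_zero (p : ℝ) (j : ℕ) : TT p j 0 = 0 := by
  unfold TT
  simp

lemma TT_norm_sq (p : ℝ) (j : ℕ) (v : E) :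
    ‖TT p j v‖ ^ 2 ≤ KK j ^ (-(2 / p - 1)) * ‖v‖ ^ 2 := by
  have hK := KK_pos j
  have hN : (0 : ℝ) < NN j := by exact_mod_cast NN_pos j
  have h := flat_op (NN_pos j) (om_prim j) sh sh_add sh_zero v (WW j : ℤ)
  unfold TT
  rw [norm_smul, Complex.norm_real, Real.norm_eq_abs, abs_of_nonneg (by positivity), mul_pow]
  have h1 : ‖∑ l ∈ range (WW j), cc j (l : ℤ) • sh ((WW j : ℤ) + l) v‖ ^ 2 ≤ KK j * ‖v‖ ^ 2 := by
    unfold KK
    rw [← mul_pow]
    exact pow_le_pow_left₀ (norm_nonneg _) h 2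
  calc _ ≤ (KK j ^ (-(1 / p))) ^ 2 * (KK j * ‖v‖ ^ 2) := by gcongr
    _ = KK j ^ (-(2 / p - 1)) * ‖v‖ ^ 2 := by
      rw [← mul_assoc]
      congr 1
      rw [← Real.rpow_natCast, ← Real.rpow_mul hK.le]
      nth_rewrite 2 [← Real.rpow_one (KK j)]
      rw [← Real.rpow_add hK]
      congr 1
      push_cast; ring

lemma sh_ee (a x : ℤ) : sh a (ee x) = ee (x + a) := by
  ext k
  rw [sh_apply, ee_apply, ee_apply]
  congr 1
  rw [eq_iff_iff]
  constructor <;> intro h <;> linarith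

lemma TT_ee_apply (p : ℝ) (j : ℕ) (y z : ℤ) :
    TT p j (ee y) z = ((KK j ^ (-(1 / p)) : ℝ) : ℂ) * cc j (z - WW j - y) := by
  rw [TT_apply]
  unfold kop
  congr 1
  simp_rw [ee_apply]
  by_cases h : 0 ≤ z - WW j - y ∧ z - WW j - y < WW j
  · rw [Finset.sum_eq_single (z - WW j - y).toNat]
    · rw [Int.toNat_of_nonneg h.1, if_pos (by ring), mul_one]
    · intro l _ hl
      rw [if_neg, mul_zero]
      intro h2
      apply hl
      omega
    · intro h2
      exfalso
      apply h2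
      rw [mem_range]
      omega
  · have h0 : cc j (z - WW j - y) = 0 := by
      by_contra h1
      apply h
      obtain ⟨h2, h3⟩ := ck_supp (NN_pos j) h1
      refine ⟨h2, ?_⟩
      unfold WW at h3 ⊢
      push_cast at h3 ⊢
      exact h3
    rw [h0]
    refine Finset.sum_eq_zero fun l hl => ?_
    rw [if_neg, mul_zero]
    intro h2
    apply h
    rw [mem_range] at hl
    omega

lemma TT_inner (p : ℝ) (i : ℕ) (x : ℤ) (v : E) :
    ⟪TT p i (ee x), v⟫ = ((KK i ^ (-(1 / p)) : ℝ) : ℂ) *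
      ∑ l ∈ range (WW i), (starRingEnd ℂ) (cc i (l : ℤ)) * v (x + ((WW i : ℤ) + l)) := by
  unfold TT
  rw [inner_smul_left, sum_inner, Complex.conj_ofReal]
  congr 1
  refine Finset.sum_congr rfl fun l _ => ?_
  rw [inner_smul_left, sh_ee, inner_ee]

lemma TT_inner_ee {i j : ℕ} (hij : i < j) (p : ℝ) (x y : ℤ) :
    ‖⟪TT p i (ee x), TT p j (ee y)⟫‖ ≤ KK i ^ (-(1 / p)) * KK j ^ (-(1 / p)) * (2 * NN i) := by
  have hKi := KK_pos i
  have hKj := KK_pos j
  rw [TT_inner]
  simp_rw [TT_ee_apply]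
  have h1 : ∑ l ∈ range (WW i), (starRingEnd ℂ) (cc i (l : ℤ)) *
      (((KK j ^ (-(1 / p)) : ℝ) : ℂ) * cc j (x + ((WW i : ℤ) + l) - WW j - y))
      = ((KK j ^ (-(1 / p)) : ℝ) : ℂ) * ∑ l ∈ range (WW i), (starRingEnd ℂ) (cc i (l : ℤ)) *
        cc j ((x + WW i - WW j - y) + l) := by
    rw [Finset.mul_sum]
    refine Finset.sum_congr rfl fun l _ => ?_
    rw [show x + ((WW i : ℤ) + l) - WW j - y = (x + WW i - WW j - y) + l by ring]
    ring
  rw [h1, norm_mul, norm_mul, Complex.norm_real, Complex.norm_real, Real.norm_eq_abs,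
    Real.norm_eq_abs, abs_of_nonneg (by positivity), abs_of_nonneg (by positivity), ← mul_assoc]
  have h2 := corr (NN_pos i) (NN_pos j) (NN_growth hij) (om_prim i) (om_prim j)
    (x + WW i - WW j - y)
  exact mul_le_mul_of_nonneg_left h2 (by positivity)

lemma TT_inner_zero {i j : ℕ} (p : ℝ) (x y : ℤ)
    (h : x < y + WW j - WW i - WW i ∨ y + WW j - WW i - WW i + (WW i + WW j : ℕ) ≤ x) :
    ⟪TT p i (ee x), TT p j (ee y)⟫ = 0 := by
  rw [TT_inner]
  rw [Finset.sum_eq_zero, mul_zero]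
  intro l hl
  rw [TT_ee_apply]
  have h0 : cc j (x + ((WW i : ℤ) + l) - WW j - y) = 0 := by
    by_contra h1
    obtain ⟨h2, h3⟩ := ck_supp (NN_pos j) h1
    have h4 : x + ((WW i : ℤ) + l) - WW j - y < WW j := by
      have : ((WW j : ℕ) : ℤ) = 2 * NN j * NN j := by unfold WW; push_cast; ring
      rw [this] at h3 ⊢
      exact h3
    rw [mem_range] at hl
    push_cast at h
    omega
  rw [h0, mul_zero, mul_zero]



/-! ### Pieces of a finitely supported function -/

noncomputable def wt (p : ℝ) (g : ℤ → ℂ) (x : ℤ) : ℝ := ‖g x‖ ^ p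

lemma wt_nonneg (p : ℝ) (g : ℤ → ℂ) (x : ℤ) : 0 ≤ wt p g x := by unfold wt; positivity

open Classical in
noncomputable def vec (S : Finset ℤ) (g : ℤ → ℂ) (P : ℤ → Prop) : E :=
  ∑ x ∈ S, (if P x then g x else 0) • ee x

open Classical in
noncomputable def mass (p : ℝ) (S : Finset ℤ) (g : ℤ → ℂ) (P : ℤ → Prop) : ℝ :=
  ∑ x ∈ S, if P x then wt p g x else 0

lemma mass_eq (p : ℝ) (S : Finset ℤ) (g : ℤ → ℂ) (P : ℤ → Prop) [DecidablePred P] :
    mass p S g P = ∑ x ∈ S, if P x then wt p g x else 0 := by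
  unfold mass
  refine Finset.sum_congr rfl fun x _ => ?_
  congr

lemma mass_nonneg (p : ℝ) (S : Finset ℤ) (g : ℤ → ℂ) (P : ℤ → Prop) : 0 ≤ mass p S g P := by
  unfold mass
  refine Finset.sum_nonneg fun x _ => ?_
  split_ifs
  · exact wt_nonneg _ _ _
  · exact le_rfl

lemma mass_mono (p : ℝ) (S : Finset ℤ) (g : ℤ → ℂ) {P Q : ℤ → Prop} (h : ∀ x, P x → Q x) :
    mass p S g P ≤ mass p S g Q := by
  unfold mass
  refine Finset.sum_le_sum fun x _ => ?_
  by_cases hP : P x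
  · rw [if_pos hP, if_pos (h x hP)]
  · rw [if_neg hP]
    split_ifs
    · exact wt_nonneg _ _ _
    · exact le_rfl

lemma vec_apply (S : Finset ℤ) (g : ℤ → ℂ) (P : ℤ → Prop) (k : ℤ) (h : vec S g P k ≠ 0) :
    k ∈ S ∧ P k := by
  classical
  unfold vec at h
  rw [sum_apply] at h
  obtain ⟨x, hx, h1⟩ := Finset.exists_ne_zero_of_sum_ne_zero h
  rw [lp.coeFn_smul, Pi.smul_apply, ee_apply] at h1
  by_cases hkx : k = x
  · subst hkx
    refine ⟨hx, ?_⟩
    by_contra hP
    rw [if_neg hP] at h1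
    simp at h1
  · rw [if_neg hkx] at h1
    simp at h1

lemma rpow_two_div {p : ℝ} (hp : 0 < p) (g : ℤ → ℂ) (x : ℤ) : ‖g x‖ ^ 2 = wt p g x ^ (2 / p) := by
  unfold wt
  rw [← Real.rpow_mul (norm_nonneg _), mul_div_cancel₀ _ hp.ne']
  norm_cast

lemma sq_le {p : ℝ} (hp : 0 < p) (hp2 : p < 2) (g : ℤ → ℂ) (x : ℤ) {B : ℝ} (h : wt p g x ≤ B) :
    ‖g x‖ ^ 2 ≤ B ^ (2 / p - 1) * wt p g x := by
  have hs : 0 < 2 / p - 1 := by
    have : 1 < 2 / p := by rw [lt_div_iff₀ hp]; linarith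
    linarith
  rw [rpow_two_div hp]
  have h0 := wt_nonneg p g x
  have : wt p g x ^ (2 / p) = wt p g x ^ (2 / p - 1) * wt p g x := by
    nth_rewrite 3 [← Real.rpow_one (wt p g x)]
    rw [← Real.rpow_add_of_nonneg h0 hs.le zero_le_one]
    congr 1; ring
  rw [this]
  exact mul_le_mul_of_nonneg_right (Real.rpow_le_rpow h0 h hs.le) h0

lemma norm_le_L1 {p : ℝ} (hp : 1 < p) (g : ℤ → ℂ) (x : ℤ) {B : ℝ} (hB : 0 < B) (h : B ≤ wt p g x) :
    ‖g x‖ ≤ B ^ (1 / p - 1) * wt p g x := by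
  have hp0 : 0 < p := by linarith
  have hw : 0 < wt p g x := lt_of_lt_of_le hB h
  have h1 : ‖g x‖ = wt p g x ^ (1 / p - 1) * wt p g x := by
    nth_rewrite 2 [← Real.rpow_one (wt p g x)]
    rw [← Real.rpow_add hw]
    unfold wt
    rw [← Real.rpow_mul (norm_nonneg _)]
    rw [show p * (1 / p - 1 + 1) = 1 by field_simp; ring, Real.rpow_one]
  rw [h1]
  refine mul_le_mul_of_nonneg_right ?_ hw.le
  refine Real.rpow_le_rpow_of_nonpos hB h ?_
  have : 1 / p < 1 := by rw [div_lt_one hp0]; exact hp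
  linarith

lemma vec_norm_sq (S : Finset ℤ) (g : ℤ → ℂ) (P : ℤ → Prop) [DecidablePred P] :
    ‖vec S g P‖ ^ 2 = ∑ x ∈ S, if P x then ‖g x‖ ^ 2 else 0 := by
  classical
  unfold vec
  rw [norm_sq_sum_ee]
  refine Finset.sum_congr rfl fun x _ => ?_
  by_cases h : P x <;> simp [h]

noncomputable def rho (p : ℝ) : ℝ := (2 : ℝ) ^ (-(2 / p - 1))

lemma rho_pos (p : ℝ) : 0 < rho p := by unfold rho; positivity

lemma rho_lt_one {p : ℝ} (hp : 0 < p) (hp2 : p < 2) : rho p < 1 := by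
  have hs : 0 < 2 / p - 1 := by
    have : 1 < 2 / p := by rw [lt_div_iff₀ hp]; linarith
    linarith
  unfold rho
  exact Real.rpow_lt_one_of_one_lt_of_neg (by norm_num) (by linarith)

lemma four_rpow (p : ℝ) (m : ℕ) : ((4 : ℝ) ^ m) ^ (-(2 / p - 1)) = (rho p ^ m) ^ 2 := by
  unfold rho
  rw [← pow_mul, ← Real.rpow_natCast, ← Real.rpow_natCast, ← Real.rpow_mul (by norm_num),
    ← Real.rpow_mul (by norm_num), show (4 : ℝ) = 2 ^ (2 : ℝ) by norm_num,
    ← Real.rpow_mul (by norm_num)]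
  congr 1
  push_cast; ring

lemma TT_L2 {p : ℝ} (hp : 0 < p) (hp2 : p < 2) (S : Finset ℤ) (g : ℤ → ℂ) (P : ℤ → Prop) (j m : ℕ)
    (h : ∀ x, P x → wt p g x ≤ KK j / 4 ^ m) :
    ‖TT p j (vec S g P)‖ ^ 2 ≤ (rho p ^ m) ^ 2 * mass p S g P := by
  classical
  have hK := KK_pos j
  have h4 : (0 : ℝ) < 4 ^ m := by positivity
  have h1 : ‖vec S g P‖ ^ 2 ≤ (KK j / 4 ^ m) ^ (2 / p - 1) * mass p S g P := by
    rw [vec_norm_sq]
    unfold mass
    rw [Finset.mul_sum]
    refine Finset.sum_le_sum fun x _ => ?_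
    by_cases hP : P x
    · rw [if_pos hP, if_pos hP]
      exact sq_le hp hp2 g x (h x hP)
    · rw [if_neg hP, if_neg hP, mul_zero]
  refine (TT_norm_sq p j _).trans ?_
  calc KK j ^ (-(2 / p - 1)) * ‖vec S g P‖ ^ 2
      ≤ KK j ^ (-(2 / p - 1)) * ((KK j / 4 ^ m) ^ (2 / p - 1) * mass p S g P) := by gcongr
    _ = (rho p ^ m) ^ 2 * mass p S g P := by
      rw [← mul_assoc]
      congr 1
      rw [← four_rpow, Real.div_rpow hK.le h4.le, Real.rpow_neg hK.le, Real.rpow_neg h4.le]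
      have := Real.rpow_pos_of_pos hK (2 / p - 1)
      field_simp

/-- general energy estimate -/
lemma energy {F : Type*} [NormedAddCommGroup F] [InnerProductSpace ℂ F] (v : ℕ → F) (D c : ℕ → ℝ)
    (hD : ∀ j, 0 ≤ D j) (h1 : ∀ j, ‖v j‖ ^ 2 ≤ D j)
    (h2 : ∀ i j, i < j → ‖⟪v i, v j⟫‖ ≤ c i * D j) (h3 : ∀ J, ∑ i ∈ range J, c i ≤ 1 / 2) (J : ℕ) :
    ‖∑ j ∈ range J, v j‖ ^ 2 ≤ 2 * ∑ j ∈ range J, D j := by
  induction J with
  | zero => simp
  | succ n ih =>
    rw [Finset.sum_range_succ, Finset.sum_range_succ]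
    set A := ∑ j ∈ range n, v j with hA
    have h4 : ‖⟪A, v n⟫‖ ≤ (1 / 2) * D n := by
      rw [hA, sum_inner]
      refine (norm_sum_le _ _).trans ?_
      calc _ ≤ ∑ i ∈ range n, c i * D n :=
            Finset.sum_le_sum fun i hi => h2 i n (mem_range.1 hi)
        _ = (∑ i ∈ range n, c i) * D n := by rw [Finset.sum_mul]
        _ ≤ _ := mul_le_mul_of_nonneg_right (h3 n) (hD n)
    have h5 := norm_add_sq (𝕜 := ℂ) A (v n)
    have h6 : RCLike.re ⟪A, v n⟫ ≤ ‖⟪A, v n⟫‖ := RCLike.re_le_norm _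
    have := h1 n
    rw [h5]
    linarith


/-! ### Levels and windows -/

def core (p : ℝ) (g : ℤ → ℂ) (j : ℕ) (x : ℤ) : Prop := KK j / 4 ^ j ≤ wt p g x ∧ wt p g x < KK j

def lvl (p : ℝ) (g : ℤ → ℂ) (m j : ℕ) (x : ℤ) : Prop :=
  KK j / 4 ^ (m + 1) ≤ wt p g x ∧ wt p g x < KK j / 4 ^ m

noncomputable def Sj (p : ℝ) (S : Finset ℤ) (g : ℤ → ℂ) (j : ℕ) (r : ℤ) : ℝ :=
  mass p S g (fun x => core p g j x ∧ x / (WW j : ℤ) = r)

def good (p : ℝ) (S : Finset ℤ) (g : ℤ → ℂ) (j : ℕ) (x : ℤ) : Prop :=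
  Sj p S g j (x / (WW j : ℤ)) ≤ WW j

def PP (p : ℝ) (S : Finset ℤ) (g : ℤ → ℂ) (m j : ℕ) (x : ℤ) : Prop :=
  lvl p g m j x ∧ good p S g j x

lemma lvl_core {p : ℝ} {g : ℤ → ℂ} {m j : ℕ} (hmj : m < j) {x : ℤ} (h : lvl p g m j x) :
    core p g j x := by
  have hK := KK_pos j
  refine ⟨le_trans ?_ h.1, lt_of_lt_of_le h.2 ?_⟩
  · apply div_le_div_of_nonneg_left hK.le (by positivity)
    exact pow_le_pow_right₀ (by norm_num) hmj
  · rw [div_le_iff₀ (by positivity)]
    have : (1 : ℝ) ≤ 4 ^ m := one_le_pow₀ (by norm_num)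
    nlinarith

lemma window (p : ℝ) (S : Finset ℤ) (g : ℤ → ℂ) (j : ℕ) (α : ℤ) (L : ℕ) :
    mass p S g (fun x => (core p g j x ∧ good p S g j x) ∧ (α ≤ x ∧ x < α + L)) ≤ L + 2 * WW j := by
  classical
  have hW : (0 : ℤ) < WW j := by exact_mod_cast WW_pos j
  set R := Finset.Icc (α / (WW j : ℤ)) ((α + L) / (WW j : ℤ)) with hR
  have h1 : mass p S g (fun x => (core p g j x ∧ good p S g j x) ∧ (α ≤ x ∧ x < α + L))
      ≤ ∑ r ∈ R, mass p S g (fun x => (core p g j x ∧ good p S g j x) ∧ x / (WW j : ℤ) = r) := by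
    simp_rw [mass_eq p S g]
    rw [Finset.sum_comm]
    refine Finset.sum_le_sum fun x _ => ?_
    by_cases hx : (core p g j x ∧ good p S g j x) ∧ (α ≤ x ∧ x < α + L)
    · rw [if_pos hx]
      have hmem : x / (WW j : ℤ) ∈ R := by
        rw [hR, Finset.mem_Icc]
        exact ⟨Int.ediv_le_ediv hW hx.2.1, Int.ediv_le_ediv hW hx.2.2.le⟩
      have := Finset.single_le_sum (f := fun r => if (core p g j x ∧ good p S g j x) ∧ x / (WW j : ℤ) = r
        then wt p g x else 0) (fun r _ => by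
          split_ifs
          · exact wt_nonneg _ _ _
          · exact le_rfl) hmem
      refine le_trans (le_of_eq ?_) this
      simp only [and_true]
      rw [if_pos hx.1]
    · rw [if_neg hx]
      refine Finset.sum_nonneg fun r _ => ?_
      split_ifs
      · exact wt_nonneg _ _ _
      · exact le_rfl
  have h2 : ∀ r ∈ R, mass p S g (fun x => (core p g j x ∧ good p S g j x) ∧ x / (WW j : ℤ) = r)
      ≤ WW j := by
    intro r _
    by_cases hex : ∃ x, (core p g j x ∧ good p S g j x) ∧ x / (WW j : ℤ) = r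
    · obtain ⟨x, hx1, hx2⟩ := hex
      have h3 : Sj p S g j r ≤ WW j := by
        have := hx1.2
        unfold good at this
        rwa [hx2] at this
      refine le_trans ?_ h3
      unfold Sj
      exact mass_mono p S g (fun y hy => ⟨hy.1.1, hy.2⟩)
    · have : mass p S g (fun x => (core p g j x ∧ good p S g j x) ∧ x / (WW j : ℤ) = r) = 0 := by
        unfold mass
        refine Finset.sum_eq_zero fun x _ => ?_
        rw [if_neg]
        intro hx
        exact hex ⟨x, hx⟩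
      rw [this]; positivity
  refine h1.trans ((Finset.sum_le_sum h2).trans ?_)
  rw [Finset.sum_const, nsmul_eq_mul]
  have h3 : ((R.card : ℕ) : ℤ) * WW j ≤ L + 2 * WW j := by
    rw [hR, Int.card_Icc]
    have e1 := Int.mul_ediv_add_emod (α + L) (WW j : ℤ)
    have e2 := Int.mul_ediv_add_emod α (WW j : ℤ)
    have e3 := Int.emod_nonneg (α + L) hW.ne'
    have e4 := Int.emod_lt_of_pos α hW
    have e5 : α / (WW j : ℤ) ≤ (α + L) / (WW j : ℤ) := Int.ediv_le_ediv hW (by omega)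
    rw [Int.toNat_of_nonneg (by omega)]
    nlinarith
  exact_mod_cast h3

/-- cross terms at one level -/
lemma cross {p : ℝ} (hp : 1 < p) (hp2 : p < 2) (S : Finset ℤ) (g : ℤ → ℂ) {m i j : ℕ} (hmi : m < i)
    (hij : i < j) :
    ‖⟪TT p i (vec S g (PP p S g m i)), TT p j (vec S g (PP p S g m j))⟫‖
      ≤ (1 / 4 * (1 / 2) ^ i) * ((rho p ^ m) ^ 2 * mass p S g (PP p S g m j)) := by
  classical
  have hp0 : 0 < p := by linarith
  have hKi := KK_pos i
  have hKj := KK_pos j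
  have hNi : (0 : ℝ) < NN i := by exact_mod_cast NN_pos i
  have h4 : (0 : ℝ) < 4 ^ (m + 1) := by positivity
  set c : ℝ := KK i ^ (-(1 / p)) * KK j ^ (-(1 / p)) * (2 * NN i) with hc
  have hc0 : 0 ≤ c := by positivity
  set Bi : ℝ := (KK i / 4 ^ (m + 1)) ^ (1 / p - 1) with hBi
  set Bj : ℝ := (KK j / 4 ^ (m + 1)) ^ (1 / p - 1) with hBj
  have hBi0 : 0 ≤ Bi := by positivity
  have hBj0 : 0 ≤ Bj := by positivity
  -- expand
  have hexp : ⟪TT p i (vec S g (PP p S g m i)), TT p j (vec S g (PP p S g m j))⟫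
      = ∑ y ∈ S, ∑ x ∈ S, (starRingEnd ℂ) (if PP p S g m i x then g x else 0) *
        (if PP p S g m j y then g y else 0) * ⟪TT p i (ee x), TT p j (ee y)⟫ := by
    unfold vec
    rw [TT_sum, TT_sum, inner_sum]
    refine Finset.sum_congr rfl fun y _ => ?_
    rw [sum_inner]
    refine Finset.sum_congr rfl fun x _ => ?_
    rw [inner_smul_left, inner_smul_right]
    ring
  rw [hexp]
  -- bound for each y
  have hy : ∀ y ∈ S, ‖∑ x ∈ S, (starRingEnd ℂ) (if PP p S g m i x then g x else 0) *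
        (if PP p S g m j y then g y else 0) * ⟪TT p i (ee x), TT p j (ee y)⟫‖
      ≤ (if PP p S g m j y then wt p g y else 0) * (c * Bi * Bj * (2 * WW j)) := by
    intro y _
    by_cases hPy : PP p S g m j y
    · rw [if_pos hPy, if_pos hPy]
      set α : ℤ := y + WW j - WW i - WW i with hα
      have hx : ∀ x ∈ S, ‖(starRingEnd ℂ) (if PP p S g m i x then g x else 0) * g y *
          ⟪TT p i (ee x), TT p j (ee y)⟫‖
          ≤ (if (core p g i x ∧ good p S g i x) ∧ (α ≤ x ∧ x < α + (WW i + WW j : ℕ))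
            then wt p g x else 0) * (c * Bi * ‖g y‖) := by
        intro x _
        by_cases hPx : PP p S g m i x
        · rw [if_pos hPx]
          by_cases hxα : α ≤ x ∧ x < α + (WW i + WW j : ℕ)
          · rw [if_pos ⟨⟨lvl_core hmi hPx.1, hPx.2⟩, hxα⟩]
            rw [norm_mul, norm_mul, RCLike.norm_conj]
            have e1 := norm_le_L1 hp g x (by positivity) hPx.1.1
            have e2 := TT_inner_ee hij p x y
            calc ‖g x‖ * ‖g y‖ * ‖⟪TT p i (ee x), TT p j (ee y)⟫‖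
                ≤ (Bi * wt p g x) * ‖g y‖ * c := by
                  refine mul_le_mul (mul_le_mul_of_nonneg_right e1 (norm_nonneg _)) e2
                    (norm_nonneg _) ?_
                  have := wt_nonneg p g x
                  positivity
              _ = _ := by ring
          · have : ⟪TT p i (ee x), TT p j (ee y)⟫ = 0 := by
              apply TT_inner_zero
              rw [not_and_or, not_le, not_lt] at hxα
              exact hxα
            rw [this, mul_zero, norm_zero, if_neg (fun h => hxα h.2), zero_mul]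
        · rw [if_neg hPx]
          simp only [map_zero, zero_mul, norm_zero]
          refine mul_nonneg ?_ (by positivity)
          split_ifs
          · exact wt_nonneg _ _ _
          · exact le_rfl
      have hwin := window p S g i α (WW i + WW j)
      have hWg := WW_growth hij
      have e1 := norm_le_L1 hp g y (by positivity) hPy.1.1
      calc _ ≤ ∑ x ∈ S, (if (core p g i x ∧ good p S g i x) ∧ (α ≤ x ∧ x < α + (WW i + WW j : ℕ))
            then wt p g x else 0) * (c * Bi * ‖g y‖) :=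
            (norm_sum_le _ _).trans (Finset.sum_le_sum hx)
        _ = mass p S g (fun x => (core p g i x ∧ good p S g i x) ∧
              (α ≤ x ∧ x < α + (WW i + WW j : ℕ))) * (c * Bi * ‖g y‖) := by
            rw [← Finset.sum_mul, mass_eq]
        _ ≤ (2 * WW j) * (c * Bi * (Bj * wt p g y)) := by
            refine mul_le_mul ?_ ?_ (by positivity) (by positivity)
            · refine hwin.trans ?_
              push_cast
              linarith
            · exact mul_le_mul_of_nonneg_left e1 (by positivity)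
        _ = _ := by ring
    · rw [if_neg hPy, if_neg hPy]
      simp
  refine (norm_sum_le _ _).trans ((Finset.sum_le_sum hy).trans ?_)
  rw [← Finset.sum_mul]
  have hmass : ∑ y ∈ S, (if PP p S g m j y then wt p g y else 0) = mass p S g (PP p S g m j) := rfl
  rw [hmass]
  have hm0 := mass_nonneg p S g (PP p S g m j)
  -- constants
  have hconst : c * Bi * Bj * (2 * WW j) ≤ (1 / 4 * (1 / 2) ^ i) * (rho p ^ m) ^ 2 := by
    have e1 : c * Bi * Bj * (2 * WW j) = 8 / NN i * ((4 : ℝ) ^ (m + 1)) ^ (2 - 2 / p) := by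
      rw [hc, hBi, hBj, WW_eq, Real.div_rpow hKi.le h4.le, Real.div_rpow hKj.le h4.le]
      have e2 : KK i ^ (-(1 / p)) * KK i ^ (1 / p - 1) = (KK i)⁻¹ := by
        rw [← Real.rpow_add hKi, show -(1 / p) + (1 / p - 1) = -1 by ring, Real.rpow_neg_one]
      have e3 : KK j ^ (-(1 / p)) * KK j ^ (1 / p - 1) = (KK j)⁻¹ := by
        rw [← Real.rpow_add hKj, show -(1 / p) + (1 / p - 1) = -1 by ring, Real.rpow_neg_one]
      have e4 : (((4 : ℝ) ^ (m + 1)) ^ (1 / p - 1))⁻¹ * (((4 : ℝ) ^ (m + 1)) ^ (1 / p - 1))⁻¹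
          = ((4 : ℝ) ^ (m + 1)) ^ (2 - 2 / p) := by
        rw [← Real.rpow_neg h4.le, ← Real.rpow_add h4]
        congr 1; ring
      rw [← e4]
      have e5 : KK i = (NN i : ℝ) ^ 2 := rfl
      calc KK i ^ (-(1 / p)) * KK j ^ (-(1 / p)) * (2 * NN i) *
            (KK i ^ (1 / p - 1) / ((4 : ℝ) ^ (m + 1)) ^ (1 / p - 1)) *
            (KK j ^ (1 / p - 1) / ((4 : ℝ) ^ (m + 1)) ^ (1 / p - 1)) * (2 * (2 * KK j))
          = (KK i ^ (-(1 / p)) * KK i ^ (1 / p - 1)) * (KK j ^ (-(1 / p)) * KK j ^ (1 / p - 1)) *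
            (8 * NN i * KK j) * ((((4 : ℝ) ^ (m + 1)) ^ (1 / p - 1))⁻¹ *
              (((4 : ℝ) ^ (m + 1)) ^ (1 / p - 1))⁻¹) := by
              rw [div_eq_mul_inv, div_eq_mul_inv]; ring
        _ = _ := by
              rw [e2, e3, e5]
              field_simp
    have e6 : ((4 : ℝ) ^ (m + 1)) ^ (2 - 2 / p) ≤ 4 ^ i * (rho p ^ m) ^ 2 := by
      have h4m : (0 : ℝ) < 4 ^ m := by positivity
      have hs : 0 < 2 / p - 1 := by
        have : 1 < 2 / p := by rw [lt_div_iff₀ hp0]; linarith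
        linarith
      calc ((4 : ℝ) ^ (m + 1)) ^ (2 - 2 / p)
          = 4 ^ (m + 1) * ((4 : ℝ) ^ (m + 1)) ^ (-(2 / p - 1)) := by
            nth_rewrite 2 [← Real.rpow_one ((4 : ℝ) ^ (m + 1))]
            rw [← Real.rpow_add h4]
            congr 1; ring
        _ ≤ 4 ^ i * ((4 : ℝ) ^ m) ^ (-(2 / p - 1)) := by
            refine mul_le_mul (pow_le_pow_right₀ (by norm_num) hmi) ?_ (by positivity) (by positivity)
            refine Real.rpow_le_rpow_of_nonpos h4m ?_ (by linarith)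
            exact pow_le_pow_right₀ (by norm_num) (by omega)
        _ = _ := by rw [four_rpow]
    have e7 : (32 : ℝ) * 8 ^ i ≤ NN i := by exact_mod_cast NN_large i
    rw [e1]
    calc 8 / (NN i : ℝ) * ((4 : ℝ) ^ (m + 1)) ^ (2 - 2 / p)
        ≤ 8 / (32 * 8 ^ i) * (4 ^ i * (rho p ^ m) ^ 2) := by
          refine mul_le_mul ?_ e6 (by positivity) (by positivity)
          exact div_le_div_of_nonneg_left (by norm_num) (by positivity) e7
      _ = _ := by
          have : (8 : ℝ) ^ i = 4 ^ i * 2 ^ i := by rw [← mul_pow]; norm_num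
          rw [this, div_pow, one_pow]
          have h1 : (0 : ℝ) < 4 ^ i := by positivity
          have h2 : (0 : ℝ) < 2 ^ i := by positivity
          field_simp
          ring
  calc mass p S g (PP p S g m j) * (c * Bi * Bj * (2 * WW j))
      ≤ mass p S g (PP p S g m j) * ((1 / 4 * (1 / 2) ^ i) * (rho p ^ m) ^ 2) :=
        mul_le_mul_of_nonneg_left hconst hm0
    _ = _ := by ring



noncomputable def TTh (p : ℝ) (j : ℕ) : E →+ E where
  toFun := TT p j
  map_zero' := TT_zero p j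
  map_add' := TT_add p j

lemma level_energy {p : ℝ} (hp : 1 < p) (hp2 : p < 2) (S : Finset ℤ) (g : ℤ → ℂ) (m J : ℕ) :
    ‖∑ j ∈ range J, (if m < j then TT p j (vec S g (PP p S g m j)) else 0)‖ ^ 2
      ≤ 2 * ∑ j ∈ range J, (if m < j then (rho p ^ m) ^ 2 * mass p S g (PP p S g m j) else 0) := by
  have hp0 : 0 < p := by linarith
  have hr := rho_pos p
  apply energy (c := fun i => 1 / 4 * (1 / 2) ^ i)
  · intro j
    split_ifs
    · have := mass_nonneg p S g (PP p S g m j)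
      positivity
    · exact le_rfl
  · intro j
    split_ifs with h
    · exact TT_L2 hp0 hp2 S g _ j m (fun x hx => hx.1.2.le)
    · simp
  · intro i j hij
    by_cases hmi : m < i
    · rw [if_pos hmi, if_pos (hmi.trans hij), if_pos (hmi.trans hij)]
      exact cross hp hp2 S g hmi hij
    · rw [if_neg hmi, inner_zero_left, norm_zero]
      refine mul_nonneg (by positivity) ?_
      split_ifs
      · have := mass_nonneg p S g (PP p S g m j)
        positivity
      · exact le_rfl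
  · intro J
    rw [← Finset.mul_sum]
    have := sum_geometric_two_le J
    linarith

lemma core_unique {p : ℝ} {g : ℤ → ℂ} {i j : ℕ} {x : ℤ} (hi : core p g i x) (hj : core p g j x) :
    i = j := by
  by_contra hne
  wlog h : i < j generalizing i j
  · exact this hj hi (Ne.symm hne) (by omega)
  have h1 := KK_growth' h
  have h2 : KK i ≤ KK j / 4 ^ j := by
    rw [le_div_iff₀ (by positivity)]; linarith
  have h3 := hi.2
  have h4 := hj.1
  linarith

lemma core_mass (p : ℝ) (S : Finset ℤ) (g : ℤ → ℂ) (J : ℕ) :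
    ∑ j ∈ range J, mass p S g (core p g j) ≤ ∑ x ∈ S, wt p g x := by
  classical
  simp_rw [mass_eq p S g]
  rw [Finset.sum_comm]
  refine Finset.sum_le_sum fun x _ => ?_
  rw [← Finset.sum_filter, Finset.sum_const, nsmul_eq_mul]
  have h1 : (((range J).filter (fun j => core p g j x)).card : ℝ) ≤ 1 := by
    have : ((range J).filter (fun j => core p g j x)).card ≤ 1 := by
      rw [Finset.card_le_one]
      intro a ha b hb
      exact core_unique (mem_filter.1 ha).2 (mem_filter.1 hb).2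
    exact_mod_cast this
  have := wt_nonneg p g x
  nlinarith

open Classical in
lemma lvl_sum (p : ℝ) (g : ℤ → ℂ) (j n : ℕ) (x : ℤ) (c : ℂ) :
    ∑ m ∈ range n, (if lvl p g m j x then c else 0)
      = if KK j / 4 ^ n ≤ wt p g x ∧ wt p g x < KK j then c else 0 := by
  have hK := KK_pos j
  induction n with
  | zero =>
    simp only [range_zero, sum_empty, pow_zero, div_one]
    rw [if_neg]
    rintro ⟨h1, h2⟩
    linarith
  | succ n ih =>
    rw [Finset.sum_range_succ, ih]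
    have h1 : KK j / 4 ^ (n + 1) ≤ KK j / 4 ^ n := by
      apply div_le_div_of_nonneg_left hK.le (by positivity)
      exact pow_le_pow_right₀ (by norm_num) (by omega)
    have h2 : KK j / 4 ^ n ≤ KK j := by
      rw [div_le_iff₀ (by positivity)]
      have : (1 : ℝ) ≤ 4 ^ n := one_le_pow₀ (by norm_num)
      nlinarith
    unfold lvl
    by_cases hA : KK j / 4 ^ n ≤ wt p g x
    · by_cases hB : wt p g x < KK j
      · rw [if_pos ⟨hA, hB⟩, if_neg (fun h => absurd h.2 (not_lt.2 hA)),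
          if_pos ⟨h1.trans hA, hB⟩, add_zero]
      · rw [if_neg (fun h => hB h.2), if_neg (fun h => absurd h.2 (not_lt.2 hA)),
          if_neg (fun h => hB h.2), add_zero]
    · rw [if_neg (fun h => hA h.1), zero_add]
      rw [not_le] at hA
      by_cases hC : KK j / 4 ^ (n + 1) ≤ wt p g x
      · rw [if_pos ⟨hC, hA⟩, if_pos ⟨hC, hA.trans_le h2⟩]
      · rw [if_neg (fun h => hC h.1), if_neg (fun h => hC h.1)]

lemma vec_partition (p : ℝ) (S : Finset ℤ) (g : ℤ → ℂ) (j : ℕ) :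
    vec S g (fun _ => True) = vec S g (fun x => KK j ≤ wt p g x)
      + vec S g (fun x => wt p g x < KK j / 4 ^ j)
      + vec S g (fun x => core p g j x ∧ ¬ good p S g j x)
      + ∑ m ∈ range j, vec S g (PP p S g m j) := by
  classical
  have hK := KK_pos j
  unfold vec
  rw [Finset.sum_comm (s := range j), ← Finset.sum_add_distrib, ← Finset.sum_add_distrib,
    ← Finset.sum_add_distrib]
  refine Finset.sum_congr rfl fun x _ => ?_
  rw [← Finset.sum_smul, ← add_smul, ← add_smul, ← add_smul]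
  congr 1
  have h1 : ∑ m ∈ range j, (if PP p S g m j x then g x else 0)
      = if core p g j x ∧ good p S g j x then g x else 0 := by
    by_cases hg : good p S g j x
    · have := lvl_sum p g j j x (g x)
      simp only [PP, hg, and_true]
      rw [this]
      by_cases hc : core p g j x
      · rw [if_pos hc]; exact if_pos hc
      · rw [if_neg hc]; exact if_neg hc
    · simp [PP, hg]
  rw [h1]
  have h2 : KK j / 4 ^ j ≤ KK j := by
    rw [div_le_iff₀ (by positivity)]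
    have : (1 : ℝ) ≤ 4 ^ j := one_le_pow₀ (by norm_num)
    nlinarith
  by_cases hA : KK j ≤ wt p g x
  · have hnc : ¬ core p g j x := fun h => absurd h.2 (not_lt.2 hA)
    have hnl : ¬ wt p g x < KK j / 4 ^ j := not_lt.2 (h2.trans hA)
    simp [hA, hnc, hnl]
  · by_cases hB : wt p g x < KK j / 4 ^ j
    · have hnc : ¬ core p g j x := fun h => absurd h.1 (not_le.2 hB)
      simp [hA, hB, hnc]
    · have hc : core p g j x := ⟨not_lt.1 hB, not_le.1 hA⟩
      by_cases hg : good p S g j x <;> simp [hA, hB, hc, hg]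

lemma vec_true_apply (S : Finset ℤ) (g : ℤ → ℂ) (hg : ∀ x, x ∉ S → g x = 0) (k : ℤ) :
    vec S g (fun _ => True) k = g k := by
  classical
  unfold vec
  rw [sum_apply]
  simp only [if_true]
  by_cases hk : k ∈ S
  · rw [Finset.sum_eq_single k]
    · rw [lp.coeFn_smul, Pi.smul_apply, ee_apply, if_pos rfl]; simp
    · intro x _ hx
      rw [lp.coeFn_smul, Pi.smul_apply, ee_apply, if_neg (Ne.symm hx)]; simp
    · intro h; exact absurd hk h
  · rw [hg k hk]
    refine Finset.sum_eq_zero fun x hx => ?_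
    rw [lp.coeFn_smul, Pi.smul_apply, ee_apply, if_neg]
    · simp
    · rintro rfl; exact hk hx

lemma TT_apply_ne {p : ℝ} {j : ℕ} {v : E} {k : ℤ} (h : TT p j v k ≠ 0) :
    ∃ l : ℕ, l < WW j ∧ v (k - ((WW j : ℤ) + l)) ≠ 0 := by
  rw [TT_apply] at h
  unfold kop at h
  have h1 := right_ne_zero_of_mul h
  obtain ⟨l, hl, h2⟩ := Finset.exists_ne_zero_of_sum_ne_zero h1
  exact ⟨l, mem_range.1 hl, right_ne_zero_of_mul h2⟩

lemma bad_card (p : ℝ) (S : Finset ℤ) (g : ℤ → ℂ) (j : ℕ) :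
    ∃ X : Finset ℤ, (X.card : ℝ) ≤ 2 * mass p S g (core p g j) ∧
      ∀ k ∉ X, TT p j (vec S g (fun x => core p g j x ∧ ¬ good p S g j x)) k = 0 := by
  classical
  have hW : (0 : ℤ) < WW j := by exact_mod_cast WW_pos j
  set R := (S.filter (fun x => core p g j x ∧ ¬ good p S g j x)).image (fun x => x / (WW j : ℤ)) with hR
  refine ⟨R.biUnion (fun r => Finset.Ico (r * WW j + WW j) (r * WW j + WW j + 2 * WW j)), ?_, ?_⟩
  · have h1 : ((R.biUnion (fun r => Finset.Ico (r * (WW j : ℤ) + WW j) (r * WW j + WW j + 2 * WW j))).card : ℝ)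
        ≤ ∑ r ∈ R, (2 * (WW j : ℝ)) := by
      have h2 := Finset.card_biUnion_le (s := R)
        (t := fun r => Finset.Ico (r * (WW j : ℤ) + WW j) (r * WW j + WW j + 2 * WW j))
      have h3 : ∑ r ∈ R, (Finset.Ico (r * (WW j : ℤ) + WW j) (r * WW j + WW j + 2 * WW j)).card
          = ∑ r ∈ R, (2 * WW j) := by
        refine Finset.sum_congr rfl fun r _ => ?_
        rw [Int.card_Ico]
        omega
      rw [h3] at h2
      exact_mod_cast h2
    refine h1.trans ?_
    have h4 : ∀ r ∈ R, (WW j : ℝ) ≤ Sj p S g j r := by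
      intro r hr
      rw [hR, Finset.mem_image] at hr
      obtain ⟨x, hx, rfl⟩ := hr
      have := (mem_filter.1 hx).2.2
      unfold good at this
      exact (not_le.1 this).le
    rw [← Finset.mul_sum]
    refine mul_le_mul_of_nonneg_left ((Finset.sum_le_sum h4).trans ?_) (by norm_num)
    unfold Sj
    simp_rw [mass_eq p S g]
    rw [Finset.sum_comm]
    refine Finset.sum_le_sum fun x _ => ?_
    by_cases hc : core p g j x
    · simp only [hc, true_and, if_true]
      rw [Finset.sum_ite_eq]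
      split_ifs
      · exact le_rfl
      · exact wt_nonneg _ _ _
    · simp [hc]
  · intro k hk
    by_contra h
    obtain ⟨l, hl, h2⟩ := TT_apply_ne h
    obtain ⟨h3, h4⟩ := vec_apply _ _ _ _ h2
    apply hk
    rw [Finset.mem_biUnion]
    refine ⟨(k - ((WW j : ℤ) + l)) / (WW j : ℤ), ?_, ?_⟩
    · rw [hR, Finset.mem_image]
      exact ⟨_, mem_filter.2 ⟨h3, h4⟩, rfl⟩
    · rw [Finset.mem_Ico]
      have e1 := Int.mul_ediv_add_emod (k - ((WW j : ℤ) + l)) (WW j : ℤ)
      have e3 := Int.emod_nonneg (k - ((WW j : ℤ) + l)) hW.ne'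
      have e4 := Int.emod_lt_of_pos (k - ((WW j : ℤ) + l)) hW
      rw [mul_comm] at e1
      constructor <;> omega

lemma hi_card (p : ℝ) (S : Finset ℤ) (g : ℤ → ℂ) (j : ℕ) :
    ∃ X : Finset ℤ, (X.card : ℝ) ≤ ∑ x ∈ S, (if KK j ≤ wt p g x then (WW j : ℝ) else 0) ∧
      ∀ k ∉ X, TT p j (vec S g (fun x => KK j ≤ wt p g x)) k = 0 := by
  classical
  refine ⟨(S.filter (fun x => KK j ≤ wt p g x)).biUnion
    (fun x => Finset.Ico (x + WW j) (x + WW j + WW j)), ?_, ?_⟩
  · have h2 := Finset.card_biUnion_le (s := S.filter (fun x => KK j ≤ wt p g x))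
        (t := fun x => Finset.Ico (x + (WW j : ℤ)) (x + WW j + WW j))
    have h3 : ∑ x ∈ S.filter (fun x => KK j ≤ wt p g x),
        (Finset.Ico (x + (WW j : ℤ)) (x + WW j + WW j)).card
          = ∑ x ∈ S.filter (fun x => KK j ≤ wt p g x), WW j := by
      refine Finset.sum_congr rfl fun r _ => ?_
      rw [Int.card_Ico]
      omega
    rw [h3] at h2
    rw [← Finset.sum_filter]
    exact_mod_cast h2
  · intro k hk
    by_contra h
    obtain ⟨l, hl, h2⟩ := TT_apply_ne h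
    obtain ⟨h3, h4⟩ := vec_apply _ _ _ _ h2
    apply hk
    rw [Finset.mem_biUnion]
    refine ⟨(k - ((WW j : ℤ) + l)), mem_filter.2 ⟨h3, h4⟩, ?_⟩
    rw [Finset.mem_Ico]
    constructor <;> omega

/-- The discrete weak type estimate, uniform in the number of scales. -/
theorem discrete_weak {p : ℝ} (hp : 1 < p) (hp2 : p < 2) (J : ℕ) (S F : Finset ℤ) (g : ℤ → ℂ)
    (hg : ∀ x, x ∉ S → g x = 0) (hF : ∀ k ∈ F, 1 < ‖∑ j ∈ range J, kop p j g k‖) :
    (F.card : ℝ) ≤ (6 + 9 / (1 - rho p) ^ 2) * ∑ x ∈ S, ‖g x‖ ^ p := by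
  classical
  have hp0 : 0 < p := by linarith
  have hr0 := rho_pos p
  have hr1 := rho_lt_one hp0 hp2
  have h1r : 0 < 1 - rho p := by linarith
  set a : ℝ := ∑ x ∈ S, wt p g x with ha
  have ha' : ∑ x ∈ S, ‖g x‖ ^ p = a := rfl
  have ha0 : 0 ≤ a := Finset.sum_nonneg fun x _ => wt_nonneg _ _ _
  rw [ha']
  choose XB hXB1 hXB2 using bad_card p S g
  choose XH hXH1 hXH2 using hi_card p S g
  set U := (range J).biUnion XB ∪ (range J).biUnion XH with hU
  have hUcard : (U.card : ℝ) ≤ 6 * a := by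
    have e1 : (U.card : ℝ) ≤ ∑ j ∈ range J, ((XB j).card : ℝ) + ∑ j ∈ range J, ((XH j).card : ℝ) := by
      have e2 := Finset.card_union_le ((range J).biUnion XB) ((range J).biUnion XH)
      have e3 := Finset.card_biUnion_le (s := range J) (t := XB)
      have e4 := Finset.card_biUnion_le (s := range J) (t := XH)
      have e5 : U.card ≤ ∑ j ∈ range J, (XB j).card + ∑ j ∈ range J, (XH j).card := by
        rw [hU]; omega
      exact_mod_cast e5
    have e6 : ∑ j ∈ range J, ((XB j).card : ℝ) ≤ 2 * a := by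
      calc _ ≤ ∑ j ∈ range J, 2 * mass p S g (core p g j) := Finset.sum_le_sum fun j _ => hXB1 j
        _ = 2 * ∑ j ∈ range J, mass p S g (core p g j) := by rw [Finset.mul_sum]
        _ ≤ 2 * a := by
          have := core_mass p S g J
          linarith
    have e7 : ∑ j ∈ range J, ((XH j).card : ℝ) ≤ 4 * a := by
      calc _ ≤ ∑ j ∈ range J, ∑ x ∈ S, (if KK j ≤ wt p g x then (WW j : ℝ) else 0) :=
            Finset.sum_le_sum fun j _ => hXH1 j
        _ = ∑ x ∈ S, ∑ j ∈ range J, (if KK j ≤ wt p g x then (WW j : ℝ) else 0) := Finset.sum_comm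
        _ ≤ ∑ x ∈ S, 4 * wt p g x := Finset.sum_le_sum fun x _ => KK_sum_le J (wt_nonneg _ _ _)
        _ = 4 * a := by rw [← Finset.mul_sum]
    linarith
  -- the square summable part
  set low : ℕ → E := fun j => TT p j (vec S g (fun x => wt p g x < KK j / 4 ^ j)) with hlow
  set GG : ℕ → E := fun m => ∑ j ∈ range J, (if m < j then TT p j (vec S g (PP p S g m j)) else 0)
    with hGG
  set u : E := ∑ j ∈ range J, low j + ∑ m ∈ range J, GG m with hu
  have hlown : ∀ j, ‖low j‖ ≤ rho p ^ j * √a := by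
    intro j
    have e1 := TT_L2 hp0 hp2 S g (fun x => wt p g x < KK j / 4 ^ j) j j (fun x hx => hx.le)
    have e2 : mass p S g (fun x => wt p g x < KK j / 4 ^ j) ≤ a := by
      unfold mass
      refine Finset.sum_le_sum fun x _ => ?_
      split_ifs
      · exact le_rfl
      · exact wt_nonneg _ _ _
    have e3 : ‖low j‖ ^ 2 ≤ (rho p ^ j * √a) ^ 2 := by
      rw [mul_pow, Real.sq_sqrt ha0]
      exact e1.trans (mul_le_mul_of_nonneg_left e2 (by positivity))
    exact (pow_le_pow_iff_left₀ (norm_nonneg _) (by positivity) two_ne_zero).1 e3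
  have hGGn : ∀ m, ‖GG m‖ ≤ 2 * (rho p ^ m * √a) := by
    intro m
    have e1 := level_energy hp hp2 S g m J
    have e2 : ∑ j ∈ range J, (if m < j then (rho p ^ m) ^ 2 * mass p S g (PP p S g m j) else 0)
        ≤ (rho p ^ m) ^ 2 * a := by
      calc _ ≤ ∑ j ∈ range J, (rho p ^ m) ^ 2 * mass p S g (core p g j) := by
            refine Finset.sum_le_sum fun j _ => ?_
            split_ifs with h
            · exact mul_le_mul_of_nonneg_left
                (mass_mono p S g (fun x hx => lvl_core h hx.1)) (by positivity)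
            · have := mass_nonneg p S g (core p g j)
              positivity
        _ = (rho p ^ m) ^ 2 * ∑ j ∈ range J, mass p S g (core p g j) := by rw [Finset.mul_sum]
        _ ≤ _ := mul_le_mul_of_nonneg_left (core_mass p S g J) (by positivity)
    have e3 : ‖GG m‖ ^ 2 ≤ (2 * (rho p ^ m * √a)) ^ 2 := by
      rw [mul_pow, mul_pow, Real.sq_sqrt ha0]
      have : 0 ≤ (rho p ^ m) ^ 2 * a := by positivity
      rw [hGG]
      linarith
    exact (pow_le_pow_iff_left₀ (norm_nonneg _) (by positivity) two_ne_zero).1 e3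
  have hgeom : ∑ j ∈ range J, rho p ^ j ≤ 1 / (1 - rho p) := by
    rw [geom_sum_eq hr1.ne]
    rw [← neg_div_neg_eq, neg_sub, neg_sub]
    apply div_le_div_of_nonneg_right _ h1r.le
    have : 0 ≤ rho p ^ J := by positivity
    linarith
  have hun : ‖u‖ ≤ 3 / (1 - rho p) * √a := by
    calc ‖u‖ ≤ ∑ j ∈ range J, ‖low j‖ + ∑ m ∈ range J, ‖GG m‖ :=
          (norm_add_le _ _).trans (add_le_add (norm_sum_le _ _) (norm_sum_le _ _))
      _ ≤ ∑ j ∈ range J, rho p ^ j * √a + ∑ m ∈ range J, 2 * (rho p ^ m * √a) :=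
          add_le_add (Finset.sum_le_sum fun j _ => hlown j) (Finset.sum_le_sum fun m _ => hGGn m)
      _ = 3 * ((∑ j ∈ range J, rho p ^ j) * √a) := by
          rw [← Finset.mul_sum, ← Finset.sum_mul]; ring
      _ ≤ 3 * ((1 / (1 - rho p)) * √a) := by gcongr
      _ = _ := by ring
  have hun2 : ‖u‖ ^ 2 ≤ 9 / (1 - rho p) ^ 2 * a := by
    calc ‖u‖ ^ 2 ≤ (3 / (1 - rho p) * √a) ^ 2 := by gcongr
      _ = _ := by rw [mul_pow, Real.sq_sqrt ha0, div_pow]; norm_num
  -- pointwise identity off the exceptional set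
  have hpt : ∀ k, k ∉ U → ∑ j ∈ range J, kop p j g k = u k := by
    intro k hk
    rw [hU, Finset.mem_union, not_or, Finset.mem_biUnion, Finset.mem_biUnion] at hk
    push Not at hk
    have e1 : ∀ j ∈ range J, kop p j g k = low j k + ∑ m ∈ range J,
        (if m < j then TT p j (vec S g (PP p S g m j)) else 0 : E) k := by
      intro j hj
      have e2 : kop p j g k = TT p j (vec S g (fun _ => True)) k := by
        rw [TT_apply]
        congr 1
        ext k
        rw [vec_true_apply S g hg]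
      have e3 : TT p j (vec S g (fun _ => True)) = TT p j (vec S g (fun x => KK j ≤ wt p g x))
          + low j + TT p j (vec S g (fun x => core p g j x ∧ ¬ good p S g j x))
          + ∑ m ∈ range j, TT p j (vec S g (PP p S g m j)) := by
        rw [vec_partition p S g j, TT_add, TT_add, TT_add]
        congr 1
        exact map_sum (TTh p j) _ _
      have e4 : ∑ m ∈ range j, TT p j (vec S g (PP p S g m j))
          = ∑ m ∈ range J, (if m < j then TT p j (vec S g (PP p S g m j)) else 0) := by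
        rw [← Finset.sum_filter]
        congr 1
        ext m
        simp only [mem_range, mem_filter] at hj ⊢
        omega
      rw [e2, e3, e4]
      rw [lp.coeFn_add, Pi.add_apply, lp.coeFn_add, Pi.add_apply, lp.coeFn_add, Pi.add_apply,
        hXH2 j k (hk.2 j hj), hXB2 j k (hk.1 j hj), sum_apply]
      ring
    rw [Finset.sum_congr rfl e1, Finset.sum_add_distrib, Finset.sum_comm, hu, lp.coeFn_add,
      Pi.add_apply, sum_apply, sum_apply]
    congr 1
    refine Finset.sum_congr rfl fun m _ => ?_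
    rw [hGG]
    simp only
    rw [sum_apply]
  -- conclusion
  have hsplit : (F.card : ℝ) ≤ (U.card : ℝ) + ((F \ U).card : ℝ) := by
    have : F.card ≤ U.card + (F \ U).card := by
      calc F.card ≤ (U ∪ (F \ U)).card := Finset.card_le_card (by
            intro x hx
            by_cases h : x ∈ U
            · exact Finset.mem_union_left _ h
            · exact Finset.mem_union_right _ (Finset.mem_sdiff.2 ⟨hx, h⟩))
        _ ≤ _ := Finset.card_union_le _ _
    exact_mod_cast this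
  have hcheb : ((F \ U).card : ℝ) ≤ ‖u‖ ^ 2 := by
    calc ((F \ U).card : ℝ) = ∑ k ∈ F \ U, (1 : ℝ) := by simp
      _ ≤ ∑ k ∈ F \ U, ‖u k‖ ^ 2 := by
          refine Finset.sum_le_sum fun k hk => ?_
          rw [Finset.mem_sdiff] at hk
          have := hF k hk.1
          rw [hpt k hk.2] at this
          nlinarith
      _ ≤ ‖u‖ ^ 2 := sum_norm_sq_le u _
  rw [add_mul]
  linarith



/-! ### Transfer -/

noncomputable def CW (p : ℝ) : ℝ := 6 + 9 / (1 - rho p) ^ 2

lemma CW_pos (p : ℝ) : 0 < CW p := by unfold CW; positivity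

/-- discrete weak type estimate for arbitrary sequences -/
lemma discrete_weak_enn {p : ℝ} (hp : 1 < p) (hp2 : p < 2) (J : ℕ) (g : ℤ → ℂ) :
    ∑' k : ℤ, (if 1 < ‖∑ j ∈ range J, kop p j g k‖ then (1 : ℝ≥0∞) else 0)
      ≤ ENNReal.ofReal (CW p) * ∑' k : ℤ, ‖g k‖ₑ ^ p := by
  classical
  have hp0 : 0 < p := by linarith
  rw [ENNReal.tsum_eq_iSup_sum]
  refine iSup_le fun F => ?_
  rw [← Finset.sum_filter, Finset.sum_const, nsmul_eq_mul, mul_one]
  set F' := F.filter (fun k => 1 < ‖∑ j ∈ range J, kop p j g k‖) with hF'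
  set S : Finset ℤ := F'.biUnion (fun k => (range J).biUnion (fun j => (range (WW j)).image
    (fun l : ℕ => k - ((WW j : ℤ) + l)))) with hS
  set g' : ℤ → ℂ := fun x => if x ∈ S then g x else 0 with hg'
  have h1 : ∀ k ∈ F', ∑ j ∈ range J, kop p j g' k = ∑ j ∈ range J, kop p j g k := by
    intro k hk
    refine Finset.sum_congr rfl fun j hj => ?_
    unfold kop
    congr 1
    refine Finset.sum_congr rfl fun l hl => ?_
    have : k - ((WW j : ℤ) + l) ∈ S := by
      rw [hS, Finset.mem_biUnion]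
      refine ⟨k, hk, ?_⟩
      rw [Finset.mem_biUnion]
      refine ⟨j, hj, ?_⟩
      rw [Finset.mem_image]
      exact ⟨l, hl, rfl⟩
    rw [hg']
    simp only
    rw [if_pos this]
  have h2 := discrete_weak hp hp2 J S F' g' (fun x hx => by rw [hg']; simp only; rw [if_neg hx])
    (fun k hk => by rw [h1 k hk]; exact (mem_filter.1 hk).2)
  have h3 : ∑ x ∈ S, ‖g' x‖ ^ p = ∑ x ∈ S, ‖g x‖ ^ p := by
    refine Finset.sum_congr rfl fun x hx => ?_
    rw [hg']; simp only; rw [if_pos hx]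
  rw [h3] at h2
  calc ((F'.card : ℕ) : ℝ≥0∞) = ENNReal.ofReal (F'.card : ℝ) := by rw [ENNReal.ofReal_natCast]
    _ ≤ ENNReal.ofReal (CW p * ∑ x ∈ S, ‖g x‖ ^ p) := ENNReal.ofReal_le_ofReal h2
    _ = ENNReal.ofReal (CW p) * ∑ x ∈ S, ‖g x‖ₑ ^ p := by
        rw [ENNReal.ofReal_mul (CW_pos p).le, ENNReal.ofReal_sum_of_nonneg (fun x _ => by positivity)]
        congr 1
        refine Finset.sum_congr rfl fun x _ => ?_
        rw [← ENNReal.ofReal_rpow_of_nonneg (norm_nonneg _) hp0.le, ofReal_norm]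
    _ ≤ _ := by
        gcongr
        exact ENNReal.sum_le_tsum S

variable {n : ℕ}

/-- unit vector -/
noncomputable def uv (i₀ : Fin n) : Fin n → ℝ := Pi.single i₀ (1 : ℝ)

/-- slab -/
def slab (i₀ : Fin n) (k : ℤ) : Set ((Fin n → ℝ)) := {x | (k : ℝ) ≤ x i₀ ∧ x i₀ < k + 1}

lemma slab_meas (i₀ : Fin n) (k : ℤ) : MeasurableSet (slab i₀ k) := by
  have h : Measurable (fun x : (Fin n → ℝ) => x i₀) := by fun_prop
  exact (measurableSet_le measurable_const h).inter (measurableSet_lt h measurable_const)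

lemma slab_mem (i₀ : Fin n) (k : ℤ) (x : (Fin n → ℝ)) :
    x ∈ slab i₀ k ↔ ⌊x i₀⌋ = k := by
  rw [Int.floor_eq_iff]; rfl

lemma lint_slab (i₀ : Fin n) (F : (Fin n → ℝ) → ℝ≥0∞) (hF : Measurable F) :
    ∫⁻ x, F x = ∫⁻ x in slab i₀ 0, ∑' k : ℤ, F (x + (k : ℝ) • uv i₀) := by
  have h1 : ∫⁻ x, F x = ∑' k : ℤ, ∫⁻ x in slab i₀ k, F x := by
    rw [← lintegral_iUnion (slab_meas i₀)]
    · have : (⋃ k : ℤ, slab i₀ k) = Set.univ := by
        ext x
        simp only [Set.mem_iUnion, Set.mem_univ, iff_true]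
        exact ⟨⌊x i₀⌋, (slab_mem _ _ _).2 rfl⟩
      rw [this, setLIntegral_univ]
    · intro k l hkl
      rw [Function.onFun, Set.disjoint_left]
      intro x hx hy
      rw [slab_mem] at hx hy
      exact hkl (hx.symm.trans hy)
  have h2 : ∀ k : ℤ, ∫⁻ x in slab i₀ k, F x = ∫⁻ x in slab i₀ 0, F (x + (k : ℝ) • uv i₀) := by
    intro k
    have h3 := measurePreserving_add_right (volume : Measure ((Fin n → ℝ))) ((k : ℝ) • uv i₀)
    have h4 := h3.setLIntegral_comp_preimage (slab_meas i₀ k) hF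
    rw [← h4]
    congr 2
    ext x
    simp only [Set.mem_preimage, slab_mem]
    have : (x + (k : ℝ) • uv i₀) i₀ = x i₀ + (k : ℝ) := by simp [uv]
    rw [this, Int.floor_add_intCast]
    constructor <;> intro h <;> linarith
  rw [h1, lintegral_tsum]
  · exact tsum_congr h2
  · intro k
    exact (hF.comp (measurable_add_const _)).aemeasurable


/-- one scale operator on functions on `R^n` -/
noncomputable def opj (p : ℝ) (i₀ : Fin n) (j : ℕ) (f : (Fin n → ℝ) → ℂ)
    (x : (Fin n → ℝ)) : ℂ :=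
  ((KK j ^ (-(1 / p)) : ℝ) : ℂ) *
    ∑ l ∈ range (WW j), cc j (l : ℤ) * f (x - (((WW j + l : ℕ) : ℝ)) • uv i₀)

lemma opj_kop (p : ℝ) (i₀ : Fin n) (j : ℕ) (f : (Fin n → ℝ) → ℂ)
    (x : (Fin n → ℝ)) (k : ℤ) :
    opj p i₀ j f (x + (k : ℝ) • uv i₀) = kop p j (fun m => f (x + (m : ℝ) • uv i₀)) k := by
  unfold opj kop
  congr 1
  refine Finset.sum_congr rfl fun l _ => ?_
  congr 2
  rw [add_sub_assoc, ← sub_smul]
  push_cast
  rfl

lemma opj_meas (p : ℝ) (i₀ : Fin n) (j : ℕ) {f : (Fin n → ℝ) → ℂ} (hf : Measurable f) :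
    Measurable (opj p i₀ j f) := by
  unfold opj
  refine Measurable.const_mul ?_ _
  refine Finset.measurable_sum _ fun l _ => ?_
  exact (hf.comp (measurable_sub_const _)).const_mul _

/-- weak type estimate for finitely many scales -/
lemma weak_finite {p : ℝ} (hp : 1 < p) (hp2 : p < 2) (i₀ : Fin n) (J : ℕ)
    {f : (Fin n → ℝ) → ℂ} (hf : Measurable f) :
    volume {x | 1 < ‖∑ j ∈ range J, opj p i₀ j f x‖} ≤ ENNReal.ofReal (CW p) * ∫⁻ x, ‖f x‖ₑ ^ p := by
  classical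
  have hm : MeasurableSet {x | 1 < ‖∑ j ∈ range J, opj p i₀ j f x‖} := by
    refine measurableSet_lt measurable_const ?_
    exact (Finset.measurable_sum _ fun j _ => opj_meas p i₀ j hf).norm
  have h1 : volume {x | 1 < ‖∑ j ∈ range J, opj p i₀ j f x‖}
      = ∫⁻ x, {x | 1 < ‖∑ j ∈ range J, opj p i₀ j f x‖}.indicator (fun _ => (1 : ℝ≥0∞)) x := by
    rw [lintegral_indicator hm]; simp
  rw [h1, lint_slab i₀ _ (measurable_const.indicator hm),
    lint_slab i₀ (fun x => ‖f x‖ₑ ^ p) (by fun_prop)]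
  rw [← lintegral_const_mul']
  · refine lintegral_mono fun x => ?_
    have h2 := discrete_weak_enn hp hp2 J (fun m => f (x + (m : ℝ) • uv i₀))
    refine le_trans (le_of_eq ?_) h2
    refine tsum_congr fun k => ?_
    simp only [Set.indicator_apply, Set.mem_ofPred_eq, opj_kop]
  · exact ENNReal.ofReal_ne_top

/-- orbit sums are finite almost everywhere -/
lemma orbit_finite {p : ℝ} (i₀ : Fin n) {f : (Fin n → ℝ) → ℂ}
    (hf : Measurable f) (hfin : ∫⁻ x, ‖f x‖ₑ ^ p ≠ ∞) :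
    ∀ᵐ x : (Fin n → ℝ), ∑' k : ℤ, ‖f (x + (k : ℝ) • uv i₀)‖ₑ ^ p ≠ ∞ := by
  classical
  have hmS : Measurable (fun x : (Fin n → ℝ) => ∑' k : ℤ, ‖f (x + (k : ℝ) • uv i₀)‖ₑ ^ p) := by
    refine Measurable.tsum fun k => ?_
    exact ((hf.comp (measurable_add_const _)).enorm.pow_const _)
  have hinv : ∀ (x : (Fin n → ℝ)) (k : ℤ),
      ∑' m : ℤ, ‖f ((x + (k : ℝ) • uv i₀) + (m : ℝ) • uv i₀)‖ₑ ^ p
        = ∑' m : ℤ, ‖f (x + (m : ℝ) • uv i₀)‖ₑ ^ p := by
    intro x k
    rw [← (Equiv.addLeft k).tsum_eq (fun m : ℤ => ‖f (x + (m : ℝ) • uv i₀)‖ₑ ^ p)]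
    refine tsum_congr fun m => ?_
    rw [Equiv.coe_addLeft, add_assoc, ← add_smul]
    push_cast
    rfl
  have h1 := lint_slab i₀ (fun x => ‖f x‖ₑ ^ p) (by fun_prop)
  rw [h1] at hfin
  have h2 := ae_lt_top' hmS.aemeasurable.restrict hfin
  have hmB : MeasurableSet {x : (Fin n → ℝ) | ∑' k : ℤ, ‖f (x + (k : ℝ) • uv i₀)‖ₑ ^ p = ∞} :=
    hmS (measurableSet_singleton _)
  rw [ae_iff]
  simp only [ne_eq, not_not]
  have h3 : volume {x : (Fin n → ℝ) | ∑' k : ℤ, ‖f (x + (k : ℝ) • uv i₀)‖ₑ ^ p = ∞}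
      = ∫⁻ x, {x : (Fin n → ℝ) | ∑' k : ℤ, ‖f (x + (k : ℝ) • uv i₀)‖ₑ ^ p = ∞}.indicator
        (fun _ => (1 : ℝ≥0∞)) x := by
    rw [lintegral_indicator hmB]; simp
  rw [h3, lint_slab i₀ _ (measurable_const.indicator hmB)]
  rw [lintegral_eq_zero_iff']
  · filter_upwards [h2] with x hx
    simp only [Pi.zero_apply, ENNReal.tsum_eq_zero]
    intro k
    rw [Set.indicator_apply, if_neg]
    rw [Set.mem_ofPred_eq, hinv]
    exact hx.ne
  · refine (Measurable.tsum fun k => ?_).aemeasurable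
    exact (measurable_const.indicator hmB).comp (measurable_add_const _)




lemma KK_ge (j : ℕ) : (4 : ℝ) ^ j ≤ KK j := by
  have h : 4 ^ j ≤ (NN j) ^ 2 := by
    unfold NN
    rw [← pow_mul, show (4 : ℕ) ^ j = 2 ^ (2 * j) by rw [pow_mul]; norm_num]
    apply Nat.pow_le_pow_right (by norm_num)
    have h1 := four_pow_ge j
    rw [show (2 : ℕ) ^ (2 * j) = 4 ^ j by rw [pow_mul]; norm_num]
    omega
  unfold KK
  exact_mod_cast h

lemma opj_bound {p : ℝ} (hp : 1 < p) (hp2 : p < 2) (i₀ : Fin n) (j : ℕ)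
    (f : (Fin n → ℝ) → ℂ) (x : (Fin n → ℝ))
    (h : ∑' k : ℤ, ‖f (x + (k : ℝ) • uv i₀)‖ₑ ^ p ≠ ∞) :
    ‖opj p i₀ j f x‖ ≤ 2 * (∑' k : ℤ, ‖f (x + (k : ℝ) • uv i₀)‖ₑ ^ p).toReal ^ (1 / p) *
      (rho p ^ 2) ^ j := by
  have hp0 : 0 < p := by linarith
  set A : ℝ := (∑' k : ℤ, ‖f (x + (k : ℝ) • uv i₀)‖ₑ ^ p).toReal with hA
  have hA0 : 0 ≤ A := ENNReal.toReal_nonneg
  have hK := KK_pos j
  have hW : (0 : ℝ) < WW j := by exact_mod_cast WW_pos j
  set b : ℕ → ℝ := fun l => ‖f (x - (((WW j + l : ℕ) : ℝ)) • uv i₀)‖ with hb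
  have hsum : ∑ l ∈ range (WW j), b l ^ p ≤ A := by
    have hinj : Function.Injective (fun l : ℕ => (-(WW j + l : ℕ) : ℤ)) := by
      intro a c hac
      simp only at hac
      omega
    have e1 : ∑ l ∈ range (WW j), ‖f (x - (((WW j + l : ℕ) : ℝ)) • uv i₀)‖ₑ ^ p
        ≤ ∑' k : ℤ, ‖f (x + (k : ℝ) • uv i₀)‖ₑ ^ p := by
      have e2 : ∑ l ∈ range (WW j), ‖f (x - (((WW j + l : ℕ) : ℝ)) • uv i₀)‖ₑ ^ p
          = ∑ k ∈ (range (WW j)).map ⟨_, hinj⟩, ‖f (x + (k : ℝ) • uv i₀)‖ₑ ^ p := by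
        rw [Finset.sum_map]
        refine Finset.sum_congr rfl fun l _ => ?_
        rw [Function.Embedding.coeFn_mk]
        push_cast
        rw [neg_smul, sub_eq_add_neg]
      rw [e2]
      exact ENNReal.sum_le_tsum _
    have e3 : ENNReal.ofReal (∑ l ∈ range (WW j), b l ^ p) ≤ ENNReal.ofReal A := by
      rw [hA, ENNReal.ofReal_toReal h, ENNReal.ofReal_sum_of_nonneg (fun x _ => by positivity)]
      refine le_trans (le_of_eq ?_) e1
      refine Finset.sum_congr rfl fun l _ => ?_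
      rw [← ENNReal.ofReal_rpow_of_nonneg (norm_nonneg _) hp0.le, ofReal_norm]
    exact (ENNReal.ofReal_le_ofReal_iff hA0).1 e3
  have hb1 : ∑ l ∈ range (WW j), b l ≤ (WW j : ℝ) ^ (1 - 1 / p) * A ^ (1 / p) := by
    have e1 := Real.rpow_sum_le_const_mul_sum_rpow (range (WW j)) b hp.le
    have e2 : ∑ l ∈ range (WW j), |b l| = ∑ l ∈ range (WW j), b l :=
      Finset.sum_congr rfl fun l _ => abs_of_nonneg (norm_nonneg _)
    have e3 : ∑ l ∈ range (WW j), |b l| ^ p = ∑ l ∈ range (WW j), b l ^ p :=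
      Finset.sum_congr rfl fun l _ => by rw [abs_of_nonneg (norm_nonneg _)]
    rw [e2, e3, card_range] at e1
    have hs0 : 0 ≤ ∑ l ∈ range (WW j), b l := Finset.sum_nonneg fun l _ => norm_nonneg _
    have e4 : (∑ l ∈ range (WW j), b l) ^ p ≤ (WW j : ℝ) ^ (p - 1) * A :=
      e1.trans (mul_le_mul_of_nonneg_left hsum (by positivity))
    have e5 : ((∑ l ∈ range (WW j), b l) ^ p) ^ (1 / p) ≤ ((WW j : ℝ) ^ (p - 1) * A) ^ (1 / p) :=
      Real.rpow_le_rpow (by positivity) e4 (by positivity)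
    rw [← Real.rpow_mul hs0, mul_one_div_cancel hp0.ne', Real.rpow_one,
      Real.mul_rpow (by positivity) hA0, ← Real.rpow_mul hW.le] at e5
    refine e5.trans (le_of_eq ?_)
    congr 2
    field_simp
  have hn : ‖opj p i₀ j f x‖ ≤ KK j ^ (-(1 / p)) * ∑ l ∈ range (WW j), b l := by
    unfold opj
    rw [norm_mul, Complex.norm_real, Real.norm_eq_abs, abs_of_nonneg (by positivity)]
    refine mul_le_mul_of_nonneg_left ?_ (by positivity)
    refine (norm_sum_le _ _).trans (Finset.sum_le_sum fun l _ => ?_)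
    rw [norm_mul]
    have := ck_norm_le (NN_pos j) (om_prim j) (l : ℤ)
    exact mul_le_of_le_one_left (norm_nonneg _) this
  have hs : 0 < 2 / p - 1 := by
    have : 1 < 2 / p := by rw [lt_div_iff₀ hp0]; linarith
    linarith
  have h1p : 1 / p < 1 := by rw [div_lt_one hp0]; exact hp
  calc ‖opj p i₀ j f x‖ ≤ KK j ^ (-(1 / p)) * ((WW j : ℝ) ^ (1 - 1 / p) * A ^ (1 / p)) :=
        hn.trans (mul_le_mul_of_nonneg_left hb1 (by positivity))
    _ = (2 : ℝ) ^ (1 - 1 / p) * A ^ (1 / p) * KK j ^ (-(2 / p - 1)) := by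
        rw [WW_eq, Real.mul_rpow (by norm_num) hK.le]
        have : KK j ^ (-(1 / p)) * KK j ^ (1 - 1 / p) = KK j ^ (-(2 / p - 1)) := by
          rw [← Real.rpow_add hK]; congr 1; ring
        rw [← this]; ring
    _ ≤ 2 * A ^ (1 / p) * (rho p ^ 2) ^ j := by
        have e1 : (2 : ℝ) ^ (1 - 1 / p) ≤ 2 := by
          calc (2 : ℝ) ^ (1 - 1 / p) ≤ 2 ^ (1 : ℝ) :=
                Real.rpow_le_rpow_of_exponent_le (by norm_num) (by
                  have : 0 < 1 / p := by positivity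
                  linarith)
            _ = 2 := by norm_num
        have e2 : KK j ^ (-(2 / p - 1)) ≤ (rho p ^ 2) ^ j := by
          calc KK j ^ (-(2 / p - 1)) ≤ ((4 : ℝ) ^ j) ^ (-(2 / p - 1)) :=
                Real.rpow_le_rpow_of_nonpos (by positivity) (KK_ge j) (by linarith)
            _ = (rho p ^ j) ^ 2 := four_rpow p j
            _ = _ := by ring
        have e3 : 0 ≤ A ^ (1 / p) := by positivity
        have hr := rho_pos p
        exact mul_le_mul (mul_le_mul_of_nonneg_right e1 e3) e2 (by positivity) (by positivity)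

lemma opj_summable {p : ℝ} (hp : 1 < p) (hp2 : p < 2) (i₀ : Fin n)
    (f : (Fin n → ℝ) → ℂ) (x : (Fin n → ℝ))
    (h : ∑' k : ℤ, ‖f (x + (k : ℝ) • uv i₀)‖ₑ ^ p ≠ ∞) :
    Summable (fun j => opj p i₀ j f x) := by
  have hp0 : 0 < p := by linarith
  have hr := rho_pos p
  have hr1 := rho_lt_one hp0 hp2
  refine Summable.of_norm_bounded (g := fun j => 2 * (∑' k : ℤ, ‖f (x + (k : ℝ) • uv i₀)‖ₑ ^ p).toReal ^ (1 / p) *
      (rho p ^ 2) ^ j) ?_ (fun j => opj_bound hp hp2 i₀ j f x h)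
  apply Summable.mul_left
  apply summable_geometric_of_lt_one (by positivity)
  nlinarith

/-- the whole operator on functions -/
noncomputable def opT (p : ℝ) (i₀ : Fin n) (f : (Fin n → ℝ) → ℂ)
    (x : (Fin n → ℝ)) : ℂ := ∑' j, opj p i₀ j f x

/-- almost everywhere summability -/
lemma ae_summable {p : ℝ} (hp : 1 < p) (hp2 : p < 2) (i₀ : Fin n)
    {f : (Fin n → ℝ) → ℂ} (hf : Measurable f) (hfin : ∫⁻ x, ‖f x‖ₑ ^ p ≠ ∞) :
    ∀ᵐ x : (Fin n → ℝ), Summable (fun j => opj p i₀ j f x) := by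
  filter_upwards [orbit_finite i₀ hf hfin] with x hx
  exact opj_summable hp hp2 i₀ f x hx

lemma opT_aesm {p : ℝ} (hp : 1 < p) (hp2 : p < 2) (i₀ : Fin n)
    {f : (Fin n → ℝ) → ℂ} (hf : Measurable f) (hfin : ∫⁻ x, ‖f x‖ₑ ^ p ≠ ∞) :
    AEStronglyMeasurable (opT p i₀ f) volume := by
  refine aestronglyMeasurable_of_tendsto_ae Filter.atTop
    (f := fun J x => ∑ j ∈ range J, opj p i₀ j f x) (fun J => ?_) ?_
  · exact (Finset.measurable_sum _ fun j _ => opj_meas p i₀ j hf).aestronglyMeasurable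
  · filter_upwards [ae_summable hp hp2 i₀ hf hfin] with x hx
    exact hx.hasSum.tendsto_sum_nat

/-- weak type estimate at height one -/
lemma weak_one {p : ℝ} (hp : 1 < p) (hp2 : p < 2) (i₀ : Fin n)
    {f : (Fin n → ℝ) → ℂ} (hf : Measurable f) :
    volume {x | 1 < ‖opT p i₀ f x‖} ≤ ENNReal.ofReal (CW p) * ∫⁻ x, ‖f x‖ₑ ^ p := by
  by_cases hfin : ∫⁻ x, ‖f x‖ₑ ^ p = ∞
  · rw [hfin, ENNReal.mul_top]
    · exact le_top
    · rw [ne_eq, ENNReal.ofReal_eq_zero, not_le]; exact CW_pos p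
  set s : ℕ → Set ((Fin n → ℝ)) := fun N =>
    ⋂ J ∈ Set.Ici N, {x | 1 < ‖∑ j ∈ range J, opj p i₀ j f x‖} with hs
  have hmono : Monotone s := by
    intro a b hab x hx
    simp only [hs, Set.mem_iInter, Set.mem_Ici] at hx ⊢
    exact fun J hJ => hx J (hab.trans hJ)
  have h1 : volume {x | 1 < ‖opT p i₀ f x‖} ≤ volume (⋃ N, s N) := by
    apply measure_mono_ae
    filter_upwards [ae_summable hp hp2 i₀ hf hfin] with x hx hx1
    have h2 := (hx.hasSum.tendsto_sum_nat).norm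
    have h3 := h2.eventually (lt_mem_nhds (show 1 < ‖∑' j, opj p i₀ j f x‖ from hx1))
    rw [Filter.eventually_atTop] at h3
    obtain ⟨N, hN⟩ := h3
    have : x ∈ ⋃ N, s N := by
      rw [Set.mem_iUnion]
      refine ⟨N, ?_⟩
      simp only [hs, Set.mem_iInter, Set.mem_Ici]
      exact fun J hJ => hN J hJ
    exact this
  refine h1.trans ?_
  rw [hmono.measure_iUnion]
  refine iSup_le fun N => ?_
  refine le_trans (measure_mono ?_) (weak_finite hp hp2 i₀ N hf)
  intro x hx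
  simp only [hs, Set.mem_iInter, Set.mem_Ici] at hx
  exact hx N le_rfl




/-! ### The operator on `L^p` -/

lemma opT_congr (p : ℝ) (i₀ : Fin n) {f g : (Fin n → ℝ) → ℂ}
    (h : f =ᵐ[volume] g) : opT p i₀ f =ᵐ[volume] opT p i₀ g := by
  have h1 : ∀ c : ℕ, ∀ᵐ x : (Fin n → ℝ),
      f (x - ((c : ℝ)) • uv i₀) = g (x - ((c : ℝ)) • uv i₀) := by
    intro c
    exact (measurePreserving_sub_right (volume : Measure ((Fin n → ℝ)))
      ((c : ℝ) • uv i₀)).quasiMeasurePreserving.ae h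
  filter_upwards [ae_all_iff.2 h1] with x hx
  unfold opT opj
  refine tsum_congr fun j => ?_
  congr 1
  refine Finset.sum_congr rfl fun l _ => ?_
  rw [hx]

lemma opj_add (p : ℝ) (i₀ : Fin n) (j : ℕ) (f g : (Fin n → ℝ) → ℂ)
    (x : (Fin n → ℝ)) :
    opj p i₀ j (f + g) x = opj p i₀ j f x + opj p i₀ j g x := by
  unfold opj
  rw [← mul_add, ← Finset.sum_add_distrib]
  congr 1
  refine Finset.sum_congr rfl fun l _ => ?_
  rw [Pi.add_apply, mul_add]

lemma opj_smul (p : ℝ) (i₀ : Fin n) (j : ℕ) (c : ℂ) (f : (Fin n → ℝ) → ℂ)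
    (x : (Fin n → ℝ)) :
    opj p i₀ j (c • f) x = c * opj p i₀ j f x := by
  unfold opj
  have h : ∑ l ∈ range (WW j), cc j (l : ℤ) * (c • f) (x - (((WW j + l : ℕ) : ℝ)) • uv i₀)
      = c * ∑ l ∈ range (WW j), cc j (l : ℤ) * f (x - (((WW j + l : ℕ) : ℝ)) • uv i₀) := by
    rw [Finset.mul_sum]
    refine Finset.sum_congr rfl fun l _ => ?_
    rw [Pi.smul_apply, smul_eq_mul]; ring
  rw [h]; ring

lemma opT_add {p : ℝ} (hp : 1 < p) (hp2 : p < 2) (i₀ : Fin n)
    {f g : (Fin n → ℝ) → ℂ} (hf : Measurable f) (hffin : ∫⁻ x, ‖f x‖ₑ ^ p ≠ ∞)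
    (hg : Measurable g) (hgfin : ∫⁻ x, ‖g x‖ₑ ^ p ≠ ∞) :
    opT p i₀ (f + g) =ᵐ[volume] opT p i₀ f + opT p i₀ g := by
  filter_upwards [ae_summable hp hp2 i₀ hf hffin, ae_summable hp hp2 i₀ hg hgfin] with x h1 h2
  rw [Pi.add_apply]
  unfold opT
  rw [← h1.tsum_add h2]
  exact tsum_congr fun j => opj_add p i₀ j f g x

lemma opT_smul (p : ℝ) (i₀ : Fin n) (c : ℂ) (f : (Fin n → ℝ) → ℂ) :
    opT p i₀ (c • f) = c • opT p i₀ f := by
  ext x
  rw [Pi.smul_apply, smul_eq_mul]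
  unfold opT
  rw [← tsum_mul_left]
  exact tsum_congr fun j => opj_smul p i₀ j c f x

lemma opT_trans (p : ℝ) (i₀ : Fin n) (f : (Fin n → ℝ) → ℂ)
    (h : (Fin n → ℝ)) :
    opT p i₀ (f ∘ fun x => x - h) = (opT p i₀ f) ∘ fun x => x - h := by
  ext x
  unfold opT
  refine tsum_congr fun j => ?_
  unfold opj
  congr 1
  refine Finset.sum_congr rfl fun l _ => ?_
  simp only [Function.comp_apply]
  rw [sub_right_comm]

lemma Lp_meas {q : ℝ≥0∞} (f : Lp ℂ q (volume : Measure ((Fin n → ℝ)))) :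
    Measurable (f : (Fin n → ℝ) → ℂ) := (Lp.stronglyMeasurable f).measurable

lemma lint_eq {p : ℝ} (hp : 0 < p) (f : (Fin n → ℝ) → ℂ) :
    ∫⁻ x, ‖f x‖ₑ ^ p = eLpNorm f (ENNReal.ofReal p) volume ^ p := by
  rw [eLpNorm_eq_lintegral_rpow_enorm_toReal (by simpa using hp) ENNReal.ofReal_ne_top,
    ENNReal.toReal_ofReal hp.le, ← ENNReal.rpow_mul, one_div_mul_cancel hp.ne', ENNReal.rpow_one]

lemma Lp_fin {p : ℝ} (hp : 0 < p) (f : Lp ℂ (ENNReal.ofReal p) (volume : Measure ((Fin n → ℝ)))) :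
    ∫⁻ x, ‖f x‖ₑ ^ p ≠ ∞ := by
  rw [lint_eq hp]
  exact ENNReal.rpow_ne_top_of_nonneg hp.le (Lp.eLpNorm_ne_top f)

/-- the operator -/
noncomputable def opL {p : ℝ} (hp : 1 < p) (hp2 : p < 2) (i₀ : Fin n) :
    Lp ℂ (ENNReal.ofReal p) (volume : Measure ((Fin n → ℝ))) →ₗ[ℂ]
      ((Fin n → ℝ) →ₘ[volume] ℂ) where
  toFun f := AEEqFun.mk (opT p i₀ f) (opT_aesm hp hp2 i₀ (Lp_meas f) (Lp_fin (by linarith) f))
  map_add' f g := by
    have hp0 : 0 < p := by linarith
    rw [AEEqFun.mk_add_mk, AEEqFun.mk_eq_mk]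
    exact (opT_congr p i₀ (Lp.coeFn_add f g)).trans
      (opT_add hp hp2 i₀ (Lp_meas f) (Lp_fin hp0 f) (Lp_meas g) (Lp_fin hp0 g))
  map_smul' c f := by
    rw [RingHom.id_apply, AEEqFun.smul_mk, AEEqFun.mk_eq_mk, ← opT_smul]
    exact opT_congr p i₀ (Lp.coeFn_smul c f)

lemma opL_coe {p : ℝ} (hp : 1 < p) (hp2 : p < 2) (i₀ : Fin n)
    (f : Lp ℂ (ENNReal.ofReal p) (volume : Measure ((Fin n → ℝ)))) :
    (opL hp hp2 i₀ f : (Fin n → ℝ) → ℂ) =ᵐ[volume] opT p i₀ f :=
  AEEqFun.coeFn_mk _ _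

lemma opL_trans {p : ℝ} (hp : 1 < p) (hp2 : p < 2) (i₀ : Fin n)
    (f : Lp ℂ (ENNReal.ofReal p) (volume : Measure ((Fin n → ℝ))))
    (h : (Fin n → ℝ)) :
    opL hp hp2 i₀ (Lp.compMeasurePreserving (fun x => x - h) (measurePreserving_sub_right volume h) f)
      = (opL hp hp2 i₀ f).compMeasurePreserving (fun x => x - h)
        (measurePreserving_sub_right volume h) := by
  unfold opL
  simp only [LinearMap.coe_mk, AddHom.coe_mk]
  rw [AEEqFun.compMeasurePreserving_mk, AEEqFun.mk_eq_mk, ← opT_trans]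
  exact opT_congr p i₀ (Lp.coeFn_compMeasurePreserving f (measurePreserving_sub_right volume h))

/-- weak type estimate -/
lemma opT_weak {p : ℝ} (hp : 1 < p) (hp2 : p < 2) (i₀ : Fin n)
    {f : (Fin n → ℝ) → ℂ} (hf : Measurable f) {lam : ℝ} (hlam : 0 < lam) :
    volume {x | ENNReal.ofReal lam < ‖opT p i₀ f x‖ₑ}
      ≤ ENNReal.ofReal (CW p) * (ENNReal.ofReal (lam ^ (-p)) * ∫⁻ x, ‖f x‖ₑ ^ p) := by
  have hp0 : 0 < p := by linarith
  have h1 := weak_one hp hp2 i₀ (f := (((lam⁻¹ : ℝ) : ℂ)) • f) (hf.const_smul _)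
  have h2 : {x | ENNReal.ofReal lam < ‖opT p i₀ f x‖ₑ}
      = {x | 1 < ‖opT p i₀ ((((lam⁻¹ : ℝ) : ℂ)) • f) x‖} := by
    ext x
    rw [opT_smul]
    simp only [Set.mem_ofPred_eq, Pi.smul_apply, norm_smul, Complex.norm_real, Real.norm_eq_abs]
    rw [abs_of_pos (by positivity), ← ofReal_norm,
      ENNReal.ofReal_lt_ofReal_iff_of_nonneg hlam.le]
    rw [inv_mul_eq_div, one_lt_div hlam]
  have h3 : ∫⁻ x, ‖((((lam⁻¹ : ℝ) : ℂ)) • f) x‖ₑ ^ p
      = ENNReal.ofReal (lam ^ (-p)) * ∫⁻ x, ‖f x‖ₑ ^ p := by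
    rw [← lintegral_const_mul' _ _ ENNReal.ofReal_ne_top]
    refine lintegral_congr fun x => ?_
    rw [Pi.smul_apply, enorm_smul, ENNReal.mul_rpow_of_nonneg _ _ hp0.le]
    congr 1
    rw [← ofReal_norm, Complex.norm_real, Real.norm_eq_abs, abs_of_pos (by positivity),
      ENNReal.ofReal_rpow_of_nonneg (by positivity) hp0.le, Real.rpow_neg hlam.le,
      Real.inv_rpow hlam.le]
  rw [h2, ← h3]
  exact h1

/-! ### Lorentz norms -/


lemma rearr_congr {f g : (Fin n → ℝ) → ℂ} (h : f =ᵐ[volume] g) (t : ℝ) :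
    rearr f t = rearr g t := by
  unfold rearr
  congr 1
  ext s
  have : volume {x | s < ‖f x‖ₑ} = volume {x | s < ‖g x‖ₑ} := by
    apply measure_congr
    filter_upwards [h] with x hx
    apply propext
    show s < ‖f x‖ₑ ↔ s < ‖g x‖ₑ
    rw [hx]
  simp only [Set.mem_ofPred_eq, this]



lemma opT_weakNorm {p : ℝ} (hp : 1 < p) (hp2 : p < 2) (i₀ : Fin n)
    {f : (Fin n → ℝ) → ℂ} (hf : Measurable f) (hfin : ∫⁻ x, ‖f x‖ₑ ^ p ≠ ∞) :
    weakNorm p (opT p i₀ f) ≤ ENNReal.ofReal (CW p ^ (1 / p)) * eLpNorm f (ENNReal.ofReal p) volume := by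
  have hp0 : 0 < p := by linarith
  have hC := CW_pos p
  have hlint := lint_eq hp0 f
  set A : ℝ≥0∞ := eLpNorm f (ENNReal.ofReal p) volume with hA
  have hAtop : A ≠ ∞ := by
    intro h
    rw [hlint, h, ENNReal.top_rpow_of_pos hp0] at hfin
    exact hfin rfl
  unfold weakNorm
  refine iSup₂_le fun t ht => ?_
  -- it suffices to prove it with any larger real constant
  refine ENNReal.le_of_forall_pos_le_add fun ε hε _ => ?_
  set C' : ℝ := CW p ^ (1 / p) with hC'
  have hC'0 : 0 < C' := by positivity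
  set A' : ℝ := A.toReal + ε / C' with hA'
  have hA'0 : 0 < A' := by
    have : 0 ≤ A.toReal := ENNReal.toReal_nonneg
    have hε' : (0 : ℝ) < ε := by exact_mod_cast hε
    positivity
  set lam : ℝ := (CW p / t) ^ (1 / p) * A' with hlam
  have hlam0 : 0 < lam := by positivity
  have h1 := opT_weak hp hp2 i₀ hf hlam0
  have h2 : ENNReal.ofReal (CW p) * (ENNReal.ofReal (lam ^ (-p)) * ∫⁻ x, ‖f x‖ₑ ^ p)
      ≤ ENNReal.ofReal t := by
    rw [hlint]
    have e1 : A ^ p ≤ ENNReal.ofReal (A' ^ p) := by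
      rw [← ENNReal.ofReal_rpow_of_nonneg hA'0.le hp0.le]
      refine ENNReal.rpow_le_rpow ?_ hp0.le
      rw [← ENNReal.ofReal_toReal hAtop]
      apply ENNReal.ofReal_le_ofReal
      have hε' : (0 : ℝ) < ε := by exact_mod_cast hε
      have : 0 ≤ ε / C' := by positivity
      linarith
    calc _ ≤ ENNReal.ofReal (CW p) * (ENNReal.ofReal (lam ^ (-p)) * ENNReal.ofReal (A' ^ p)) := by gcongr
      _ = ENNReal.ofReal (CW p * (lam ^ (-p) * A' ^ p)) := by
          rw [ENNReal.ofReal_mul hC.le, ENNReal.ofReal_mul (by positivity)]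
      _ = ENNReal.ofReal t := by
          congr 1
          rw [hlam, Real.mul_rpow (by positivity) hA'0.le, ← Real.rpow_mul (by positivity),
            show 1 / p * (-p) = -1 by field_simp, Real.rpow_neg_one, Real.rpow_neg hA'0.le]
          have : 0 < A' ^ p := by positivity
          field_simp
  have h3 : rearr (opT p i₀ f) t ≤ ENNReal.ofReal lam := sInf_le (h1.trans h2)
  calc ENNReal.ofReal (t ^ (1 / p)) * rearr (opT p i₀ f) t
      ≤ ENNReal.ofReal (t ^ (1 / p)) * ENNReal.ofReal lam := by gcongr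
    _ = ENNReal.ofReal (C' * A.toReal + ε) := by
        rw [← ENNReal.ofReal_mul (by positivity)]
        congr 1
        rw [hlam, Real.div_rpow hC.le ht.le, hA', ← hC']
        have : 0 < t ^ (1 / p) := by positivity
        field_simp
    _ = ENNReal.ofReal C' * A + ε := by
        rw [ENNReal.ofReal_add (by positivity) (by positivity), ENNReal.ofReal_mul hC'0.le,
          ENNReal.ofReal_toReal hAtop, ENNReal.ofReal_coe_nnreal]




/-! ### Lower bound -/

/-- half open unit cube -/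
def cube (n : ℕ) : Set ((Fin n → ℝ)) := {x | ∀ i, x i ∈ Set.Ico (0 : ℝ) 1}

lemma cube_meas : MeasurableSet (cube n) := by
  have : cube n = ⋂ i, {x : (Fin n → ℝ) | x i ∈ Set.Ico (0 : ℝ) 1} := by
    ext x; simp [cube]
  rw [this]
  refine MeasurableSet.iInter fun i => ?_
  have h : Measurable (fun x : (Fin n → ℝ) => x i) := by fun_prop
  exact h measurableSet_Ico

lemma cube_vol : volume (cube n) = 1 := by
  have h2 : cube n = Set.pi Set.univ fun _ => Set.Ico (0 : ℝ) 1 := by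
    ext x; simp [cube]
  rw [h2, Real.volume_pi_Ico]
  simp

noncomputable def f0 (n : ℕ) : (Fin n → ℝ) → ℂ := (cube n).indicator (fun _ => 1)

lemma f0_apply (i₀ : Fin n) {q : (Fin n → ℝ)} (hq : q ∈ cube n) (m : ℤ) :
    f0 n (q + (m : ℝ) • uv i₀) = if m = 0 then 1 else 0 := by
  unfold f0
  split_ifs with h
  · subst h; rw [Set.indicator_of_mem]; simpa using hq
  · rw [Set.indicator_of_notMem]
    intro h2
    have h3 := h2 i₀
    have h4 := hq i₀
    have e1 : (q + (m : ℝ) • uv i₀) i₀ = q i₀ + m := by simp [uv]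
    rw [e1] at h3
    apply h
    have h5 : (-1 : ℝ) < m := by linarith [h3.1, h4.2]
    have h6 : (m : ℝ) < 1 := by linarith [h3.2, h4.1]
    have h7 : (-1 : ℤ) < m := by exact_mod_cast h5
    have h8 : m < 1 := by exact_mod_cast h6
    omega

lemma opj_cube (p : ℝ) (i₀ : Fin n) (j : ℕ) {q : (Fin n → ℝ)} (hq : q ∈ cube n) (k : ℕ) :
    opj p i₀ j (f0 n) (q + (k : ℝ) • uv i₀)
      = ((KK j ^ (-(1 / p)) : ℝ) : ℂ) * ∑ l ∈ range (WW j), (if k = WW j + l then cc j (l : ℤ) else 0) := by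
  unfold opj
  congr 1
  refine Finset.sum_congr rfl fun l _ => ?_
  have : q + (k : ℝ) • uv i₀ - (((WW j + l : ℕ) : ℝ)) • uv i₀
      = q + (((k : ℤ) - (WW j + l : ℕ) : ℤ) : ℝ) • uv i₀ := by
    rw [add_sub_assoc, ← sub_smul]; push_cast; rfl
  rw [this, f0_apply i₀ hq]
  by_cases h : k = WW j + l
  · rw [if_pos h, if_pos (by omega), mul_one]
  · rw [if_neg h, if_neg (by omega), mul_zero]

lemma opT_cube (p : ℝ) (i₀ : Fin n) (j : ℕ) {q : (Fin n → ℝ)} (hq : q ∈ cube n) {l : ℕ}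
    (hl : l < WW j) :
    opT p i₀ (f0 n) (q + ((WW j + l : ℕ) : ℝ) • uv i₀)
      = ((KK j ^ (-(1 / p)) : ℝ) : ℂ) * cc j (l : ℤ) := by
  unfold opT
  rw [tsum_eq_single j]
  · rw [opj_cube p i₀ j hq, Finset.sum_eq_single l]
    · rw [if_pos rfl]
    · intro b _ hb
      rw [if_neg]; omega
    · intro h; exact absurd (mem_range.2 hl) h
  · intro i hi
    rw [opj_cube p i₀ i hq, Finset.sum_eq_zero, mul_zero]
    intro b hb
    rw [if_neg]
    intro h
    rw [mem_range] at hb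
    have hWi := WW_pos i
    have hWj := WW_pos j
    rcases lt_or_gt_of_ne hi with h1 | h1
    · have h2 : 3 * WW i ≤ WW j := by exact_mod_cast WW_growth h1
      omega
    · have h2 : 3 * WW j ≤ WW i := by exact_mod_cast WW_growth h1
      omega

/-- good positions -/
def goodpos (j : ℕ) : Finset ℕ :=
  ((range (NN j)) ×ˢ (Finset.Ico (NN j / 2) (3 * (NN j / 2)))).image (fun a => 2 * NN j * a.1 + a.2)

lemma NN_even (j : ℕ) : 2 * (NN j / 2) = NN j := by
  unfold NN
  have : 2 ∣ 2 ^ (8 * 4 ^ j) := dvd_pow_self 2 (by positivity)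
  omega

lemma goodpos_card (j : ℕ) : (goodpos j).card = NN j * NN j := by
  unfold goodpos
  rw [Finset.card_image_of_injOn, Finset.card_product, card_range, Nat.card_Ico]
  · have := NN_even j
    congr 1
    omega
  · rintro ⟨a, b⟩ h1 ⟨c, d⟩ h2 h
    simp only [Finset.coe_product, Set.mem_prod, Finset.mem_coe, mem_range, Finset.mem_Ico] at h1 h2 h
    have hN := NN_pos j
    have he := NN_even j
    have hb : b < 2 * NN j := by omega
    have hd : d < 2 * NN j := by omega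
    have e1 : a = c := by
      have h3 : (2 * NN j * a + b) / (2 * NN j) = a := by
        rw [Nat.mul_add_div (by omega), Nat.div_eq_of_lt hb, add_zero]
      have h4 : (2 * NN j * c + d) / (2 * NN j) = c := by
        rw [Nat.mul_add_div (by omega), Nat.div_eq_of_lt hd, add_zero]
      rw [← h3, ← h4, h]
    subst e1
    have e2 : b = d := by omega
    subst e2
    rfl

lemma goodpos_spec {j l : ℕ} (h : l ∈ goodpos j) : l < WW j ∧ 1 / 2 ≤ ‖cc j (l : ℤ)‖ := by
  unfold goodpos at h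
  simp only [Finset.mem_image, Finset.mem_product, mem_range, Finset.mem_Ico, Prod.exists] at h
  obtain ⟨b, v, ⟨hb, hv1, hv2⟩, rfl⟩ := h
  have hN := NN_pos j
  have he := NN_even j
  have hv : v < 2 * NN j := by omega
  constructor
  · unfold WW
    calc 2 * NN j * b + v < 2 * NN j * b + 2 * NN j := by omega
      _ = 2 * NN j * (b + 1) := by ring
      _ ≤ 2 * NN j * NN j := Nat.mul_le_mul_left _ hb
  · have h1 := ck_norm_eq hN (om_prim j) hb (v := (v : ℤ)) (by positivity) (by exact_mod_cast hv)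
    have h2 : cc j ((2 * NN j * b + v : ℕ) : ℤ) = ck (NN j) (om j) (2 * NN j * b + v) := by
      unfold cc; push_cast; rfl
    rw [h2, h1]
    unfold phi
    apply le_max_of_le_right
    have hN' : (0 : ℝ) < NN j := by exact_mod_cast hN
    have h3 : |((v : ℤ) : ℝ) + 1 - NN j| ≤ NN j / 2 := by
      have e0 : (2 : ℝ) * ((NN j / 2 : ℕ) : ℝ) = NN j := by exact_mod_cast he
      have e1 : ((NN j / 2 : ℕ) : ℝ) ≤ v := by exact_mod_cast hv1
      have e2 : (v : ℝ) + 1 ≤ 3 * ((NN j / 2 : ℕ) : ℝ) := by exact_mod_cast hv2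
      rw [abs_le]
      push_cast
      constructor <;> linarith
    have h4 : |((v : ℤ) : ℝ) + 1 - NN j| / NN j ≤ 1 / 2 := by
      rw [div_le_iff₀ hN']; linarith
    linarith

lemma vol_lower {p : ℝ} (i₀ : Fin n) (j : ℕ) {s : ℝ≥0∞}
    (hs : s < ENNReal.ofReal (KK j ^ (-(1 / p)) / 2)) :
    ENNReal.ofReal (KK j) ≤ volume {x | s < ‖opT p i₀ (f0 n) x‖ₑ} := by
  classical
  have hK := KK_pos j
  set Bl : ℕ → Set ((Fin n → ℝ)) := fun l =>
    (fun x => x - ((WW j + l : ℕ) : ℝ) • uv i₀) ⁻¹' (cube n) with hBl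
  have hBm : ∀ l, MeasurableSet (Bl l) := fun l => (measurable_sub_const _) cube_meas
  have hsub : (⋃ l ∈ goodpos j, Bl l) ⊆ {x | s < ‖opT p i₀ (f0 n) x‖ₑ} := by
    intro x hx
    simp only [Set.mem_iUnion] at hx
    obtain ⟨l, hl, hx2⟩ := hx
    obtain ⟨h1, h2⟩ := goodpos_spec hl
    have h3 : x - ((WW j + l : ℕ) : ℝ) • uv i₀ ∈ cube n := hx2
    have h4 := opT_cube p i₀ j h3 h1
    rw [sub_add_cancel] at h4
    show s < ‖opT p i₀ (f0 n) x‖ₑ
    rw [h4]
    refine lt_of_lt_of_le hs ?_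
    rw [← ofReal_norm]
    apply ENNReal.ofReal_le_ofReal
    rw [norm_mul, Complex.norm_real, Real.norm_eq_abs, abs_of_nonneg (by positivity)]
    have : 0 < KK j ^ (-(1 / p)) := by positivity
    nlinarith
  refine le_trans ?_ (measure_mono hsub)
  rw [measure_biUnion_finset]
  · have h1 : ∀ l ∈ goodpos j, volume (Bl l) = 1 := by
      intro l _
      rw [hBl]
      simp only
      rw [(measurePreserving_sub_right (volume : Measure ((Fin n → ℝ)))
        (((WW j + l : ℕ) : ℝ) • uv i₀)).measure_preimage cube_meas.nullMeasurableSet, cube_vol]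
    rw [Finset.sum_congr rfl h1, Finset.sum_const, goodpos_card, nsmul_eq_mul, mul_one]
    unfold KK
    rw [show ((NN j : ℝ)) ^ 2 = ((NN j * NN j : ℕ) : ℝ) by push_cast; ring, ENNReal.ofReal_natCast]
  · intro a _ b _ hab
    rw [Function.onFun, Set.disjoint_left]
    intro x hxa hxb
    have h1 : (x - ((WW j + a : ℕ) : ℝ) • uv i₀) i₀ = x i₀ - ((WW j + a : ℕ) : ℝ) := by simp [uv]
    have h2 : (x - ((WW j + b : ℕ) : ℝ) • uv i₀) i₀ = x i₀ - ((WW j + b : ℕ) : ℝ) := by simp [uv]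
    have h3 : (x - ((WW j + a : ℕ) : ℝ) • uv i₀) i₀ ∈ Set.Ico (0 : ℝ) 1 := hxa i₀
    have h4 : (x - ((WW j + b : ℕ) : ℝ) • uv i₀) i₀ ∈ Set.Ico (0 : ℝ) 1 := hxb i₀
    rw [h1] at h3
    rw [h2] at h4
    apply hab
    have h5 : ((WW j + a : ℕ) : ℝ) < ((WW j + b : ℕ) : ℝ) + 1 := by linarith [h3.1, h4.2]
    have h6 : ((WW j + b : ℕ) : ℝ) < ((WW j + a : ℕ) : ℝ) + 1 := by linarith [h3.2, h4.1]
    have h7 : WW j + a < WW j + b + 1 := by exact_mod_cast h5
    have h8 : WW j + b < WW j + a + 1 := by exact_mod_cast h6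
    omega
  · intro l _
    exact hBm l

lemma rearr_lower {p : ℝ} (i₀ : Fin n) (j : ℕ) {t : ℝ} (ht : t < KK j) :
    ENNReal.ofReal (KK j ^ (-(1 / p)) / 2) ≤ rearr (opT p i₀ (f0 n)) t := by
  unfold rearr
  apply le_sInf
  intro s hs
  by_contra h
  rw [not_le] at h
  have h1 := vol_lower (n := n) i₀ j h
  have h2 : ENNReal.ofReal (KK j) ≤ ENNReal.ofReal t := h1.trans hs
  have h3 : ENNReal.ofReal t < ENNReal.ofReal (KK j) :=
    (ENNReal.ofReal_lt_ofReal_iff (KK_pos j)).2 ht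
  exact absurd h2 (not_le.2 h3)

lemma lorentz_top {p q : ℝ} (hp : 1 < p) (hq : 0 < q) (i₀ : Fin n) :
    lorentzNorm p q (opT p i₀ (f0 n)) = ∞ := by
  have hp0 : 0 < p := by linarith
  unfold lorentzNorm
  set G : ℝ → ℝ≥0∞ := fun t => (ENNReal.ofReal (t ^ (1 / p)) * rearr (opT p i₀ (f0 n)) t) ^ q *
    ENNReal.ofReal (1 / t) with hG
  have hint : ∫⁻ t in Set.Ioi (0 : ℝ), G t = ∞ := by
    set s : ℕ → Set ℝ := fun j => Set.Ico (KK j / 2) (KK j) with hs
    have hsub : (⋃ j, s j) ⊆ Set.Ioi (0 : ℝ) := by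
      intro t ht
      rw [Set.mem_iUnion] at ht
      obtain ⟨j, hj⟩ := ht
      have := KK_pos j
      have h2 := hj.1
      show 0 < t
      linarith
    have hdisj : Pairwise (Function.onFun Disjoint s) := by
      intro i j hij
      wlog h : i < j generalizing i j
      · exact (this hij.symm (by omega)).symm
      rw [Function.onFun, Set.disjoint_left]
      intro t ht1 ht2
      have h1 := KK_growth' h
      have h2 := KK_pos i
      have h3 : (4 : ℝ) ≤ 4 ^ j := by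
        calc (4 : ℝ) = 4 ^ 1 := by norm_num
          _ ≤ 4 ^ j := pow_le_pow_right₀ (by norm_num) (by omega)
      have h4 := ht1.2
      have h5 := ht2.1
      nlinarith
    have hlow : ∀ j, ENNReal.ofReal (1 / 4) ^ q * ENNReal.ofReal (1 / 2) ≤ ∫⁻ t in s j, G t := by
      intro j
      have hK := KK_pos j
      have h1 : ∀ t ∈ s j, ENNReal.ofReal (1 / 4) ^ q * ENNReal.ofReal (1 / KK j) ≤ G t := by
        intro t ht
        have ht0 : 0 < t := by have := ht.1; linarith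
        have h2 : ENNReal.ofReal (1 / 4) ≤ ENNReal.ofReal (t ^ (1 / p)) * rearr (opT p i₀ (f0 n)) t := by
          refine le_trans ?_ (mul_le_mul_right (rearr_lower i₀ j ht.2) _)
          rw [← ENNReal.ofReal_mul (by positivity)]
          apply ENNReal.ofReal_le_ofReal
          have e1 : (KK j / 2) ^ (1 / p) ≤ t ^ (1 / p) :=
            Real.rpow_le_rpow (by positivity) ht.1 (by positivity)
          have e2 : (KK j / 2) ^ (1 / p) * KK j ^ (-(1 / p)) = (2 : ℝ) ^ (-(1 / p)) := by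
            rw [Real.div_rpow hK.le (by norm_num), Real.rpow_neg hK.le, Real.rpow_neg (by norm_num)]
            have : 0 < KK j ^ (1 / p) := by positivity
            field_simp
          have e3 : (1 : ℝ) / 2 ≤ (2 : ℝ) ^ (-(1 / p)) := by
            have h1p : 1 / p < 1 := by rw [div_lt_one hp0]; exact hp
            calc (1 : ℝ) / 2 = 2 ^ (-1 : ℝ) := by rw [Real.rpow_neg_one]; norm_num
              _ ≤ (2 : ℝ) ^ (-(1 / p)) :=
                Real.rpow_le_rpow_of_exponent_le (by norm_num) (by linarith)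
          have e4 : 0 < KK j ^ (-(1 / p)) := by positivity
          calc (1 : ℝ) / 4 ≤ (2 : ℝ) ^ (-(1 / p)) / 2 := by linarith
            _ = (KK j / 2) ^ (1 / p) * (KK j ^ (-(1 / p)) / 2) := by rw [← e2]; ring
            _ ≤ _ := by gcongr
        have h3 : ENNReal.ofReal (1 / KK j) ≤ ENNReal.ofReal (1 / t) := by
          apply ENNReal.ofReal_le_ofReal
          exact one_div_le_one_div_of_le ht0 ht.2.le
        exact mul_le_mul' (ENNReal.rpow_le_rpow h2 hq.le) h3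
      calc ENNReal.ofReal (1 / 4) ^ q * ENNReal.ofReal (1 / 2)
          = ∫⁻ _ in s j, ENNReal.ofReal (1 / 4) ^ q * ENNReal.ofReal (1 / KK j) := by
            rw [setLIntegral_const, hs]
            simp only
            rw [Real.volume_Ico, mul_assoc, ← ENNReal.ofReal_mul (by positivity)]
            congr 2
            field_simp
            ring
        _ ≤ ∫⁻ t in s j, G t := setLIntegral_mono' measurableSet_Ico h1
    have hsum : ∫⁻ t in ⋃ j, s j, G t = ∑' j, ∫⁻ t in s j, G t :=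
      lintegral_iUnion (fun j => measurableSet_Ico) hdisj G
    have htop : ∑' j, ∫⁻ t in s j, G t = ∞ := by
      rw [← top_le_iff]
      calc (∞ : ℝ≥0∞) = ∑' _ : ℕ, ENNReal.ofReal (1 / 4) ^ q * ENNReal.ofReal (1 / 2) := by
            rw [ENNReal.tsum_const_eq_top_of_ne_zero]
            apply mul_ne_zero
            · rw [ne_eq, ENNReal.rpow_eq_zero_iff]
              simp
            · simp
        _ ≤ _ := ENNReal.tsum_le_tsum hlow
    rw [← top_le_iff, ← htop, ← hsum]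
    exact lintegral_mono_set hsub
  rw [hint, ENNReal.top_rpow_of_pos (by positivity)]


/-- **Answer to Rivière's question (negative, in every dimension and for every `1 < p < 2`).**
There is a translation invariant linear operator bounded from `L^p` to `L^{p,∞}` which is not
bounded from `L^p` to `L^{p,p'}`; it even maps one fixed `f` of `L^p` outside of every `L^{p,q}`
with `q` finite. -/
theorem result : ∀ n : ℕ, 1 ≤ n → ∀ p : ℝ, 1 < p → p < 2 →
    ∃ T : Op n p,
      TranslationInvariant T ∧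
      BoundedInto T (weakNorm p) ∧
      ¬ BoundedInto T (lorentzNorm p (p / (p - 1))) ∧
      ∃ f : LpR n p, ∀ q : ℝ, 0 < q → lorentzNorm p q (T f) = ∞ := by
  intro n hn p hp hp2
  have hp0 : 0 < p := by linarith
  have i₀ : Fin n := ⟨0, hn⟩
  have hC : (0 : ℝ) ≤ CW p ^ (1 / p) := by
    have := CW_pos p
    positivity
  have hex : ∃ f : Lp ℂ (ENNReal.ofReal p) (volume : Measure ((Fin n → ℝ))),
      ∀ q : ℝ, 0 < q → lorentzNorm p q (opL hp hp2 i₀ f) = ∞ := by
    refine ⟨indicatorConstLp (ENNReal.ofReal p) (cube_meas (n := n)) (by rw [cube_vol]; simp) 1,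
      fun q hq => ?_⟩
    refine Eq.trans ?_ (lorentz_top hp hq i₀)
    unfold lorentzNorm
    have h1 : (opL hp hp2 i₀ (indicatorConstLp (ENNReal.ofReal p) (cube_meas (n := n))
        (by rw [cube_vol]; simp) (1 : ℂ)) : (Fin n → ℝ) → ℂ)
        =ᵐ[volume] opT p i₀ (f0 n) :=
      (opL_coe hp hp2 i₀ _).trans (opT_congr p i₀ indicatorConstLp_coeFn)
    congr 1
    refine lintegral_congr fun t => ?_
    rw [rearr_congr h1]
  refine ⟨opL hp hp2 i₀, fun h f => opL_trans hp hp2 i₀ f h, ?_, ?_, hex⟩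
  · refine ⟨⟨CW p ^ (1 / p), hC⟩, fun f => ?_⟩
    have h1 : weakNorm p (opL hp hp2 i₀ f) = weakNorm p (opT p i₀ f) := by
      unfold weakNorm
      simp_rw [rearr_congr (opL_coe hp hp2 i₀ f)]
    rw [h1]
    refine (opT_weakNorm hp hp2 i₀ (Lp_meas f) (Lp_fin hp0 f)).trans (le_of_eq ?_)
    congr 1
    rw [ENNReal.ofReal_eq_coe_nnreal hC]
    rfl
  · rintro ⟨C, hCb⟩
    obtain ⟨f, hf⟩ := hex
    have h1 := hCb f
    have hpq : 0 < p / (p - 1) := div_pos hp0 (by linarith)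
    rw [hf _ hpq, top_le_iff] at h1
    exact ENNReal.mul_ne_top ENNReal.coe_ne_top (Lp.eLpNorm_ne_top f) h1

end Pool.Agent.Results.MP_f2c8fe_an.RiviereFalse
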